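import Pool.Agent.Lib.MP_752584_lc.SD

/-!
Computable functions and decidable predicates.
-/

namespace Pool.Agent.MP752584

variable {α β γ δ : Type*} [Primcodable α] [Primcodable β] [Primcodable γ] [Primcodable δ]

attribute [fun_prop] Computable

@[fun_prop] theorem c_id : Computable (fun a : α => a) := Computable.id
@[fun_prop] theorem c_const (b : β) : Computable (fun _ : α => b) := Computable.const b
@[fun_prop] theorem c_comp {f : β → γ} {g : α → β} (hf : Computable f) (hg : Computable g) :
    Computable (fun a => f (g a)) := hf.comp hg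
@[fun_prop] theorem c_fst {f : α → β × γ} (hf : Computable f) :
    Computable (fun a => (f a).1) := Computable.fst.comp hf
@[fun_prop] theorem c_snd {f : α → β × γ} (hf : Computable f) :
    Computable (fun a => (f a).2) := Computable.snd.comp hf
@[fun_prop] theorem c_pair {f : α → β} {g : α → γ} (hf : Computable f) (hg : Computable g) :
    Computable (fun a => (f a, g a)) := hf.pair hg
@[fun_prop] theorem c_add {f : α → ℕ} {g : α → ℕ} (hf : Computable f) (hg : Computable g) :
    Computable (fun a => f a + g a) := Primrec.nat_add.to_comp.comp hf hg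
@[fun_prop] theorem c_sub {f : α → ℕ} {g : α → ℕ} (hf : Computable f) (hg : Computable g) :
    Computable (fun a => f a - g a) := Primrec.nat_sub.to_comp.comp hf hg
@[fun_prop] theorem c_mul {f : α → ℕ} {g : α → ℕ} (hf : Computable f) (hg : Computable g) :
    Computable (fun a => f a * g a) := Primrec.nat_mul.to_comp.comp hf hg
@[fun_prop] theorem c_drop {f : α → ℕ} {g : α → List β} (hf : Computable f)
    (hg : Computable g) : Computable (fun a => (g a).drop (f a)) :=
  Primrec.list_drop.to_comp.comp hf hg
@[fun_prop] theorem c_take {f : α → ℕ} {g : α → List β} (hf : Computable f)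
    (hg : Computable g) : Computable (fun a => (g a).take (f a)) :=
  Primrec.list_take.to_comp.comp hf hg
@[fun_prop] theorem c_length {g : α → List β} (hg : Computable g) :
    Computable (fun a => (g a).length) := Primrec.list_length.to_comp.comp hg
@[fun_prop] theorem c_append {f g : α → List β} (hf : Computable f) (hg : Computable g) :
    Computable (fun a => f a ++ g a) := Computable.list_append.comp hf hg
@[fun_prop] theorem c_cons {f : α → β} {g : α → List β} (hf : Computable f)
    (hg : Computable g) : Computable (fun a => f a :: g a) := Computable.list_cons.comp hf hg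
@[fun_prop] theorem c_range {f : α → ℕ} (hf : Computable f) :
    Computable (fun a => List.range (f a)) := Primrec.list_range.to_comp.comp hf

/-- Decidable predicates. -/
def CD (p : α → Prop) : Prop := SD p ∧ SD (fun a => ¬ p a)

theorem CD.sd {p : α → Prop} (h : CD p) : SD p := h.1

theorem CD.of_eq {p q : α → Prop} (hp : CD p) (H : ∀ a, p a ↔ q a) : CD q :=
  ⟨hp.1.of_eq H, hp.2.of_eq fun a => not_congr (H a)⟩

theorem CD.of_primrecPred {p : α → Prop} (hp : PrimrecPred p) : CD p :=
  ⟨SD.of_primrecPred hp, SD.of_primrecPred hp.not⟩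

theorem CD.of_computablePred {p : α → Prop} (hp : ComputablePred p) : CD p :=
  ⟨SD.of_computablePred hp, SD.of_computablePred hp.not⟩

theorem CD.comp {p : β → Prop} (hp : CD p) {g : α → β} (hg : Computable g) :
    CD (fun a => p (g a)) := ⟨hp.1.comp hg, hp.2.comp hg⟩

theorem CD.not {p : α → Prop} (hp : CD p) : CD (fun a => ¬ p a) :=
  ⟨hp.2, hp.1.of_eq fun _ => not_not.symm⟩

theorem CD.and {p q : α → Prop} (hp : CD p) (hq : CD q) : CD (fun a => p a ∧ q a) :=
  ⟨hp.1.and hq.1, (hp.2.or hq.2).of_eq fun _ => not_and_or.symm⟩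

theorem CD.or {p q : α → Prop} (hp : CD p) (hq : CD q) : CD (fun a => p a ∨ q a) :=
  ⟨hp.1.or hq.1, (hp.2.and hq.2).of_eq fun _ => not_or.symm⟩

theorem CD.imp {p q : α → Prop} (hp : CD p) (hq : CD q) : CD (fun a => p a → q a) :=
  (hp.not.or hq).of_eq fun _ => imp_iff_not_or.symm

theorem CD.iff {p q : α → Prop} (hp : CD p) (hq : CD q) : CD (fun a => p a ↔ q a) :=
  ((hp.imp hq).and (hq.imp hp)).of_eq fun _ => iff_iff_implies_and_implies.symm

theorem CD.eq {f g : α → β} (hf : Computable f) (hg : Computable g) : CD (fun a => f a = g a) :=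
  ⟨SD.eq hf hg, SD.ne hf hg⟩

theorem CD.le {f g : α → ℕ} (hf : Computable f) (hg : Computable g) : CD (fun a => f a ≤ g a) :=
  ⟨SD.le hf hg, (SD.lt hg hf).of_eq fun _ => not_le.symm⟩

theorem CD.lt {f g : α → ℕ} (hf : Computable f) (hg : Computable g) : CD (fun a => f a < g a) :=
  ⟨SD.lt hf hg, (SD.le hg hf).of_eq fun _ => not_lt.symm⟩

theorem CD.const (P : Prop) : CD (fun _ : α => P) := ⟨SD.const P, SD.const (¬ P)⟩

theorem SD.imp {p q : α → Prop} (hp : CD p) (hq : SD q) : SD (fun a => p a → q a) :=
  (hp.2.or hq).of_eq fun _ => imp_iff_not_or.symm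

theorem SD.ex_lt {p : α → ℕ → Prop} (hp : SD (fun x : α × ℕ => p x.1 x.2)) {b : α → ℕ}
    (hb : Computable b) : SD (fun a => ∃ i < b a, p a i) :=
  SD.ex (p := fun a i => i < b a ∧ p a i) ((SD.lt (by fun_prop) (by fun_prop)).and hp)

theorem CD.ex_lt {p : α → ℕ → Prop} (hp : CD (fun x : α × ℕ => p x.1 x.2)) {b : α → ℕ}
    (hb : Computable b) : CD (fun a => ∃ i < b a, p a i) := by
  refine ⟨SD.ex_lt hp.1 hb, (SD.all_lt (p := fun a i => ¬ p a i) hp.2 hb).of_eq fun a => ?_⟩
  push Not
  rfl

theorem CD.all_lt {p : α → ℕ → Prop} (hp : CD (fun x : α × ℕ => p x.1 x.2)) {b : α → ℕ}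
    (hb : Computable b) : CD (fun a => ∀ i < b a, p a i) := by
  refine ⟨SD.all_lt hp.1 hb, (SD.ex_lt (p := fun a i => ¬ p a i) hp.2 hb).of_eq fun a => ?_⟩
  push Not
  rfl

theorem CD.mem {f : α → β} {l : α → List β} (hf : Computable f) (hl : Computable l) :
    CD (fun a => f a ∈ l a) := by
  refine (CD.ex_lt (p := fun a i => (l a)[i]? = some (f a)) ?_
    (b := fun a => (l a).length) (by fun_prop)).of_eq fun a => ?_
  · refine CD.eq ?_ (Computable.option_some.comp (hf.comp Computable.fst))
    exact Computable.list_getElem?.comp (hl.comp Computable.fst) Computable.snd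
  · constructor
    · rintro ⟨i, _, h⟩
      exact List.mem_of_getElem? h
    · intro h
      obtain ⟨i, hi, he⟩ := List.mem_iff_getElem.1 h
      exact ⟨i, hi, by rw [List.getElem?_eq_getElem hi, he]⟩

theorem SD.ex_mem {p : α → β → Prop} (hp : SD (fun x : α × β => p x.1 x.2)) {l : α → List β}
    (hl : Computable l) : SD (fun a => ∃ b ∈ l a, p a b) :=
  SD.ex (p := fun a b => b ∈ l a ∧ p a b) ((CD.mem (by fun_prop) (by fun_prop)).1.and hp)

theorem CD.ex_mem {p : α → β → Prop} (hp : CD (fun x : α × β => p x.1 x.2)) {l : α → List β}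
    (hl : Computable l) : CD (fun a => ∃ b ∈ l a, p a b) := by
  refine ⟨SD.ex_mem hp.1 hl, (SD.all_mem (p := fun a b => ¬ p a b) hp.2 hl).of_eq fun a => ?_⟩
  push Not
  rfl

theorem CD.all_mem {p : α → β → Prop} (hp : CD (fun x : α × β => p x.1 x.2)) {l : α → List β}
    (hl : Computable l) : CD (fun a => ∀ b ∈ l a, p a b) := by
  refine ⟨SD.all_mem hp.1 hl, (SD.ex_mem (p := fun a b => ¬ p a b) hp.2 hl).of_eq fun a => ?_⟩
  push Not
  rfl

theorem CD.ex_finset {ι : Type*} (l : Finset ι) {p : ι → α → Prop} (hp : ∀ i ∈ l, CD (p i)) :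
    CD (fun a => ∃ i ∈ l, p i a) := by
  refine ⟨SD.ex_finset l fun i hi => (hp i hi).1,
    (SD.all_finset l (p := fun i a => ¬ p i a) fun i hi => (hp i hi).2).of_eq fun a => ?_⟩
  push Not
  rfl

theorem CD.all_finset {ι : Type*} (l : Finset ι) {p : ι → α → Prop} (hp : ∀ i ∈ l, CD (p i)) :
    CD (fun a => ∀ i ∈ l, p i a) := by
  refine ⟨SD.all_finset l fun i hi => (hp i hi).1,
    (SD.ex_finset l (p := fun i a => ¬ p i a) fun i hi => (hp i hi).2).of_eq fun a => ?_⟩
  push Not
  rfl

/-! ### Words -/

section Words

variable {S : Type*} [Primcodable S]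

/-- The occurrence relation between words is decidable. -/
theorem CD.occ {f g : α → List S} (hf : Computable f) (hg : Computable g) :
    CD (fun a => f a <:+: g a) := by
  refine (CD.ex_lt (p := fun a i => ((g a).drop i).take (f a).length = f a)
    (b := fun a => (g a).length + 1) (CD.eq (by fun_prop) (by fun_prop))
    (by fun_prop)).of_eq fun a => ?_
  constructor
  · rintro ⟨i, _, h⟩
    rw [← h]
    exact (List.take_prefix _ _).isInfix.trans (List.drop_suffix _ _).isInfix
  · rintro ⟨s, t, h⟩
    refine ⟨s.length, ?_, ?_⟩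
    · rw [← h]
      simp
    · rw [← h]
      simp

variable [Fintype S]

/-- The list of all words of a given length. -/
noncomputable def words (S : Type*) [Fintype S] : ℕ → List (List S)
  | 0 => [[]]
  | n + 1 => (words S n).flatMap fun w => (Finset.univ : Finset S).toList.map fun a => a :: w

omit [Primcodable S] in
theorem mem_words {n : ℕ} {w : List S} : w ∈ words S n ↔ w.length = n := by
  induction n generalizing w with
  | zero => simp [words]
  | succ n ih =>
    cases w with
    | nil => simp [words]
    | cons a w => simp [words, ih]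

theorem words_computable : Computable (words S) := by
  have h : Primrec (words S) := by
    refine (Primrec.nat_rec₁ (f := fun (_ : ℕ) (l : List (List S)) =>
      l.flatMap fun w => (Finset.univ : Finset S).toList.map fun a => a :: w) [[]] ?_).of_eq ?_
    · refine Primrec.list_flatMap Primrec.snd ?_
      refine Primrec.list_map (Primrec.const _) ?_
      exact Primrec.list_cons.comp Primrec.snd (Primrec.snd.comp Primrec.fst)
    · intro n
      induction n with
      | zero => rfl
      | succ n ih => simp only [words, ← ih]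
  exact h.to_comp

@[fun_prop] theorem c_words {f : α → ℕ} (hf : Computable f) :
    Computable (fun a => words S (f a)) := words_computable.comp hf

/-- Quantification over all words of a given length. -/
theorem SD.all_words {p : α → List S → Prop} (hp : SD (fun x : α × List S => p x.1 x.2))
    {b : α → ℕ} (hb : Computable b) :
    SD (fun a => ∀ w : List S, w.length = b a → p a w) :=
  (SD.all_mem (l := fun a => words S (b a)) hp (by fun_prop)).of_eq fun a => by
    simp only [mem_words]

theorem CD.all_words {p : α → List S → Prop} (hp : CD (fun x : α × List S => p x.1 x.2))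
    {b : α → ℕ} (hb : Computable b) :
    CD (fun a => ∀ w : List S, w.length = b a → p a w) :=
  (CD.all_mem (l := fun a => words S (b a)) hp (by fun_prop)).of_eq fun a => by
    simp only [mem_words]

theorem CD.ex_words {p : α → List S → Prop} (hp : CD (fun x : α × List S => p x.1 x.2))
    {b : α → ℕ} (hb : Computable b) :
    CD (fun a => ∃ w : List S, w.length = b a ∧ p a w) :=
  (CD.ex_mem (l := fun a => words S (b a)) hp (by fun_prop)).of_eq fun a => by
    simp only [mem_words]

theorem SD.all_lt_words {p : α → List S → Prop} (hp : SD (fun x : α × List S => p x.1 x.2))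
    {b : α → ℕ} (hb : Computable b) :
    SD (fun a => ∀ w : List S, w.length < b a → p a w) := by
  refine (SD.all_lt (p := fun a n => ∀ w : List S, w.length = n → p a w) ?_ hb).of_eq
    fun a => ?_
  · exact SD.all_words (α := α × ℕ) (p := fun x w => p x.1 w)
      (hp.comp (g := fun x : (α × ℕ) × List S => (x.1.1, x.2)) (by fun_prop)) (by fun_prop)
  · constructor
    · intro h w hw
      exact h _ hw w rfl
    · intro h i hi w hw
      exact h w (by omega)

end Words

end Pool.Agent.MP752584
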