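import Pool.Agent.Lib.MP_752584_lc.Cert
import Pool.Agent.Lib.MP_752584_lc.Comp

/-!
Automata given by finite lists.
-/

namespace Pool.Agent.MP752584

section NoComp

variable {S : Type*}

open Classical in
/-- One step of the subset construction on lists. -/
noncomputable def stepL (T : List (ℕ × S × ℕ)) (Q : List ℕ) (a : S) : List ℕ :=
  T.filterMap fun t => if t.1 ∈ Q ∧ t.2.1 = a then some t.2.2 else none

theorem mem_stepL {T : List (ℕ × S × ℕ)} {Q : List ℕ} {a : S} {q' : ℕ} :
    q' ∈ stepL T Q a ↔ ∃ q ∈ Q, (q, a, q') ∈ T := by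
  classical
  unfold stepL
  rw [List.mem_filterMap]
  constructor
  · rintro ⟨⟨q, b, q''⟩, ht, h⟩
    split_ifs at h with h1
    obtain ⟨h1, h2⟩ := h1
    simp only at h1 h2
    cases h
    subst h2
    exact ⟨q, h1, ht⟩
  · rintro ⟨q, hq, ht⟩
    exact ⟨(q, a, q'), ht, by simp [hq]⟩

/-- The list of states reached by reading a word. -/
noncomputable def reach (A : Automaton S) (u : List S) : List ℕ :=
  u.foldl (stepL A.2.1) A.1

theorem reach_concat (A : Automaton S) (u : List S) (a : S) :
    reach A (u ++ [a]) = stepL A.2.1 (reach A u) a := by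
  simp [reach]

theorem mem_reach {A : Automaton S} {u : List S} {q : ℕ} :
    q ∈ reach A u ↔ q ∈ (toNFA A).eval u := by
  induction u using List.reverseRecOn generalizing q with
  | nil => simp [reach, toNFA]
  | append_singleton u a ih =>
    rw [reach_concat, mem_stepL, NFA.eval_append_singleton, NFA.mem_stepSet]
    constructor
    · rintro ⟨q', h1, h2⟩
      exact ⟨q', ih.1 h1, h2⟩
    · rintro ⟨q', h1, h2⟩
      exact ⟨q', ih.2 h1, h2⟩

theorem mem_accepted {A : Automaton S} {u : List S} :
    u ∈ accepted A ↔ ∃ q ∈ A.2.2, q ∈ reach A u := by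
  constructor
  · rintro ⟨q, h1, h2⟩
    exact ⟨q, h1, mem_reach.2 h2⟩
  · rintro ⟨q, h1, h2⟩
    exact ⟨q, h1, mem_reach.1 h2⟩

theorem reach_subset (A : Automaton S) (u : List S) :
    ∀ q ∈ reach A u, q ∈ A.1 ∨ ∃ t ∈ A.2.1, t.2.2 = q := by
  intro q hq
  induction u using List.reverseRecOn generalizing q with
  | nil => exact Or.inl hq
  | append_singleton u a ih =>
    rw [reach_concat, mem_stepL] at hq
    obtain ⟨q', _, h⟩ := hq
    exact Or.inr ⟨_, h, rfl⟩

theorem SameType.refl {κ : ℕ} {u : List S} (h : κ + 1 ≤ u.length) : SameType κ u u :=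
  ⟨h, h, rfl, rfl, fun _ _ => Iff.rfl⟩

theorem SameType.symm {κ : ℕ} {u v : List S} (h : SameType κ u v) : SameType κ v u :=
  ⟨h.2.1, h.1, h.2.2.1.symm, h.2.2.2.1.symm, fun w hw => (h.2.2.2.2 w hw).symm⟩

theorem SameType.trans {κ : ℕ} {u v w : List S} (h : SameType κ u v) (h' : SameType κ v w) :
    SameType κ u w :=
  ⟨h.1, h'.2.1, h.2.2.1.trans h'.2.2.1, h.2.2.2.1.trans h'.2.2.2.1,
    fun x hx => (h.2.2.2.2 x hx).trans (h'.2.2.2.2 x hx)⟩

theorem SameType.concat {κ : ℕ} {u v : List S} (h : SameType κ u v) (a : S) :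
    SameType κ (u ++ [a]) (v ++ [a]) := by
  obtain ⟨h1, h2, h3, h4, h5⟩ := h
  have key : ∀ u : List S, κ + 1 ≤ u.length →
      (u ++ [a]).drop (u.length - κ) = u.drop (u.length - κ) ++ [a] := by
    intro u _
    exact List.drop_append_of_le_length (by omega)
  refine ⟨by simp; omega, by simp; omega, ?_, ?_, ?_⟩
  · rw [List.take_append_of_le_length (by omega), List.take_append_of_le_length (by omega), h3]
  · have e : ∀ u : List S, κ + 1 ≤ u.length →
        (u ++ [a]).drop ((u ++ [a]).length - κ) = (u.drop (u.length - κ) ++ [a]).drop 1 := by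
      intro u hu
      rw [← key u hu, List.drop_drop]
      congr 1
      simp
      omega
    rw [e u h1, e v h2, h4]
  · intro w hw
    have e : ∀ u : List S, κ + 1 ≤ u.length →
        (w <:+: u ++ [a] ↔ w = u.drop (u.length - κ) ++ [a] ∨ w <:+: u) := by
      intro u hu
      rw [List.infix_concat_iff, List.suffix_iff_eq_drop, hw, ← key u hu]
      have : (u ++ [a]).length - (κ + 1) = u.length - κ := by simp
      rw [this]
    rw [e u h1, e v h2, h4, h5 w hw]

/-- The congruence used to certify emptiness. -/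
def Eqv (A : Automaton S) (κ : ℕ) (u v : List S) : Prop :=
  (u = v ∨ SameType κ u v) ∧ (∀ q ∈ reach A u, q ∈ reach A v) ∧ ∀ q ∈ reach A v, q ∈ reach A u

theorem Eqv.trans {A : Automaton S} {κ : ℕ} {u v w : List S} (h : Eqv A κ u v)
    (h' : Eqv A κ v w) : Eqv A κ u w := by
  refine ⟨?_, fun q hq => h'.2.1 q (h.2.1 q hq), fun q hq => h.2.2 q (h'.2.2 q hq)⟩
  rcases h.1 with rfl | h1
  · exact h'.1
  · rcases h'.1 with rfl | h2
    · exact Or.inr h1
    · exact Or.inr (h1.trans h2)

theorem Eqv.concat {A : Automaton S} {κ : ℕ} {u v : List S} (h : Eqv A κ u v) (a : S) :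
    Eqv A κ (u ++ [a]) (v ++ [a]) := by
  refine ⟨?_, ?_, ?_⟩
  · rcases h.1 with rfl | h1
    · exact Or.inl rfl
    · exact Or.inr (h1.concat a)
  · intro q hq
    rw [reach_concat, mem_stepL] at *
    obtain ⟨q', h1, h2⟩ := hq
    exact ⟨q', h.2.1 q' h1, h2⟩
  · intro q hq
    rw [reach_concat, mem_stepL] at *
    obtain ⟨q', h1, h2⟩ := hq
    exact ⟨q', h.2.2 q' h1, h2⟩

theorem Eqv.accepted {A : Automaton S} {κ : ℕ} {u v : List S} (h : Eqv A κ u v)
    (hu : u ∈ accepted A) : v ∈ accepted A := by
  rw [mem_accepted] at *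
  obtain ⟨q, h1, h2⟩ := hu
  exact ⟨q, h1, h.2.1 q h2⟩

theorem exists_rep [Finite S] (A : Automaton S) (κ : ℕ) :
    ∃ R : List (List S), [] ∈ R ∧ ∀ u : List S, ∃ r ∈ R, Eqv A κ u r := by
  classical
  let cls : List S → ℕ × List S × List S × Set (List S) × Set ℕ := fun u =>
    (min u.length (κ + 1), u.take κ, u.drop (u.length - κ),
      {w | w.length = κ + 1 ∧ w <:+: u}, {q | q ∈ reach A u})
  have hfin : (Set.range cls).Finite := by
    have hF : ((Set.Iic (κ + 1)) ×ˢ ({l : List S | l.length ≤ κ} ×ˢ ({l : List S | l.length ≤ κ}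
        ×ˢ ((𝒫 {w : List S | w.length = κ + 1}) ×ˢ
          (𝒫 {q | q ∈ A.1 ∨ ∃ t ∈ A.2.1, t.2.2 = q}))))).Finite := by
      refine (Set.finite_Iic _).prod ((List.finite_length_le S κ).prod
        ((List.finite_length_le S κ).prod (((List.finite_length_eq S (κ + 1)).finite_subsets).prod
          (Set.Finite.finite_subsets ?_))))
      refine Set.Finite.union (List.finite_toSet A.1) ?_
      refine ((List.finite_toSet A.2.1).image fun t => t.2.2).subset ?_
      rintro q ⟨t, ht, rfl⟩
      exact ⟨t, ht, rfl⟩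
    refine hF.subset ?_
    rintro _ ⟨u, rfl⟩
    refine ⟨?_, ?_, ?_, ?_, ?_⟩
    · show min u.length (κ + 1) ≤ κ + 1
      exact min_le_right _ _
    · simp [cls]
    · simp [cls]
      omega
    · intro w hw
      exact hw.1
    · intro q hq
      exact reach_subset A u q hq
  have hinv : ∀ u, cls (Function.invFun cls (cls u)) = cls u := fun u =>
    Function.invFun_eq (f := cls) ⟨u, rfl⟩
  refine ⟨[] :: (hfin.toFinset.image (Function.invFun cls)).toList, by simp, fun u => ?_⟩
  refine ⟨Function.invFun cls (cls u), ?_, ?_⟩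
  · refine List.mem_cons_of_mem _ ?_
    rw [Finset.mem_toList, Finset.mem_image]
    exact ⟨cls u, by simp, rfl⟩
  · have h := hinv u
    generalize Function.invFun cls (cls u) = v at h
    simp only [cls, Prod.mk.injEq] at h
    obtain ⟨h1, h2, h3, h4, h5⟩ := h
    refine ⟨?_, ?_, ?_⟩
    · by_cases hu : κ + 1 ≤ u.length
      · refine Or.inr ⟨hu, by omega, h2.symm, h3.symm, fun w hw => ?_⟩
        have := Set.ext_iff.1 h4 w
        exact ⟨fun h => (this.2 ⟨hw, h⟩).2, fun h => (this.1 ⟨hw, h⟩).2⟩
      · left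
        rw [List.take_of_length_le (by omega), List.take_of_length_le (by omega)] at h2
        exact h2.symm
    · intro q hq
      exact (Set.ext_iff.1 h5 q).2 hq
    · intro q hq
      exact (Set.ext_iff.1 h5 q).1 hq

/-- Certified emptiness is sound: every word is equivalent to one in the list. -/
theorem rep_of_closed {A : Automaton S} {κ : ℕ} {R : List (List S)} (h0 : [] ∈ R)
    (h1 : ∀ r ∈ R, ∀ a : S, ∃ r' ∈ R, Eqv A κ (r ++ [a]) r') (u : List S) :
    ∃ r ∈ R, Eqv A κ u r := by
  induction u using List.reverseRecOn with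
  | nil => exact ⟨[], h0, Or.inl rfl, fun _ h => h, fun _ h => h⟩
  | append_singleton u a ih =>
    obtain ⟨r, hr, hur⟩ := ih
    obtain ⟨r', hr', h⟩ := h1 r hr a
    exact ⟨r', hr', (hur.concat a).trans h⟩

/-- Local testability, in terms of `SameType`, is monotone in the parameter. -/
theorem SameType.down {κ κ' : ℕ} (hκ : κ ≤ κ') {u v : List S} (h : SameType κ' u v) :
    SameType κ u v := by
  obtain ⟨h1, h2, h3, h4, h5⟩ := h
  refine ⟨by omega, by omega, ?_, ?_, ?_⟩
  · have := congrArg (List.take κ) h3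
    rwa [List.take_take, List.take_take, min_eq_left hκ] at this
  · have e : ∀ u : List S, κ' + 1 ≤ u.length →
        u.drop (u.length - κ) = (u.drop (u.length - κ')).drop (κ' - κ) := by
      intro u hu
      rw [List.drop_drop]
      congr 1
      omega
    rw [e u h1, e v h2, h4]
  · have e : ∀ u v : List S, κ' + 1 ≤ u.length →
        (∀ w : List S, w.length = κ' + 1 → (w <:+: u ↔ w <:+: v)) →
        ∀ w : List S, w.length = κ + 1 → w <:+: u → w <:+: v := by
      rintro u v hu hfac w hw ⟨s, t, rfl⟩
      -- a factor of length `κ' + 1` containing this occurrence of `w`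
      obtain ⟨i, hi⟩ : ∃ i : ℕ, i = min s.length ((s ++ w ++ t).length - (κ' + 1)) := ⟨_, rfl⟩
      have hlen : (s ++ w ++ t).length = s.length + w.length + t.length := by
        simp only [List.length_append]
      rw [hlen] at hu hi
      have h6 : (((s ++ w ++ t).drop i).take (κ' + 1)).length = κ' + 1 := by
        rw [List.length_take, List.length_drop, hlen]
        omega
      have h7 : ((s ++ w ++ t).drop i).take (κ' + 1) <:+: s ++ w ++ t :=
        (List.take_prefix _ _).isInfix.trans (List.drop_suffix _ _).isInfix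
      refine List.IsInfix.trans ?_ ((hfac _ h6).1 h7)
      have h8 : ((((s ++ w ++ t).drop i).take (κ' + 1)).drop (s.length - i)).take (κ + 1) = w := by
        rw [List.drop_take, List.drop_drop, List.take_take,
          show i + (s.length - i) = s.length by omega, List.append_assoc, List.drop_left,
          ← hw, List.take_append_of_le_length (by omega), List.take_of_length_le (by omega)]
      have h9 := (List.take_prefix (κ + 1)
        ((((s ++ w ++ t).drop i).take (κ' + 1)).drop (s.length - i))).isInfix.trans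
        (List.drop_suffix (s.length - i) (((s ++ w ++ t).drop i).take (κ' + 1))).isInfix
      rwa [h8] at h9
    intro w hw
    exact ⟨e u v h1 h5 w hw, e v u h2 (fun w hw => (h5 w hw).symm) w hw⟩

end NoComp

section Computability

variable {S : Type*} [Primcodable S]

theorem stepL_primrec : Primrec (fun x : List (ℕ × S × ℕ) × List ℕ × S =>
    stepL x.1 x.2.1 x.2.2) := by
  classical
  unfold stepL
  refine Primrec.listFilterMap Primrec.fst ?_
  refine Primrec.ite ?_ ?_ (Primrec.const none)
  · refine PrimrecPred.and ?_ ?_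
    · have hR : PrimrecRel (fun (a b : ℕ) => a = b) := Primrec.eq
      have h := hR.exists_mem_list
      refine (h.comp (f := fun x : (List (ℕ × S × ℕ) × List ℕ × S) × (ℕ × S × ℕ) => x.1.2.1)
        (g := fun x : (List (ℕ × S × ℕ) × List ℕ × S) × (ℕ × S × ℕ) => x.2.1) ?_ ?_).of_eq ?_
      · exact Primrec.fst.comp (Primrec.snd.comp Primrec.fst)
      · exact Primrec.fst.comp Primrec.snd
      · intro x
        simp
    · exact Primrec.eq.comp (Primrec.fst.comp (Primrec.snd.comp Primrec.snd))
        (Primrec.snd.comp (Primrec.snd.comp Primrec.fst))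
  · exact Primrec.option_some.comp (Primrec.snd.comp (Primrec.snd.comp Primrec.snd))

theorem reach_primrec : Primrec (fun x : Automaton S × List S => reach x.1 x.2) := by
  refine Primrec.list_foldl (f := fun x : Automaton S × List S => x.2)
    (g := fun x : Automaton S × List S => x.1.1)
    (h := fun (x : Automaton S × List S) (y : List ℕ × S) => stepL x.1.2.1 y.1 y.2)
    Primrec.snd (Primrec.fst.comp Primrec.fst) ?_
  exact stepL_primrec.comp (Primrec.pair
    (Primrec.fst.comp (Primrec.snd.comp (Primrec.fst.comp Primrec.fst)))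
    (Primrec.pair (Primrec.fst.comp Primrec.snd) (Primrec.snd.comp Primrec.snd)))

variable {α : Type*} [Primcodable α]

@[fun_prop] theorem c_reach {f : α → Automaton S} {g : α → List S} (hf : Computable f)
    (hg : Computable g) : Computable (fun a => reach (f a) (g a)) :=
  reach_primrec.to_comp.comp (hf.pair hg)

end Computability

end Pool.Agent.MP752584
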