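import Pool.Agent.Lib.MP_752584_lc.Defs

/-!
Words, subshifts and languages.
-/

namespace Pool.Agent.MP752584

variable {S : Type*}

@[simp] theorem word_length (x : ℤ → S) (a : ℤ) (n : ℕ) : (word x a n).length = n := by
  simp [word]

@[simp] theorem word_zero (x : ℤ → S) (a : ℤ) : word x a 0 = [] := rfl

@[simp] theorem word_getElem (x : ℤ → S) (a : ℤ) (n i : ℕ) (h : i < (word x a n).length) :
    (word x a n)[i] = x (a + i) := by
  simp [word]

theorem word_getElem? (x : ℤ → S) (a : ℤ) (n i : ℕ) :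
    (word x a n)[i]? = if i < n then some (x (a + i)) else none := by
  split_ifs with h
  · rw [List.getElem?_eq_getElem (by simpa using h)]
    simp
  · rw [List.getElem?_eq_none]
    simpa using h

theorem word_eq_iff {x y : ℤ → S} {a b : ℤ} {n : ℕ} :
    word x a n = word y b n ↔ ∀ j : ℕ, j < n → x (a + j) = y (b + j) := by
  constructor
  · intro h j hj
    have := congrArg (fun l => l[j]?) h
    simpa [word_getElem?, hj] using this
  · intro h
    apply List.ext_getElem
    · simp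
    · intro i h1 h2
      simp only [word_getElem]
      exact h i (by simpa using h1)

theorem word_eq_iff' {x : ℤ → S} {a : ℤ} {w : List S} :
    word x a w.length = w ↔ ∀ (j : ℕ) (h : j < w.length), x (a + j) = w[j] := by
  constructor
  · intro h j hj
    have h2 : (word x a w.length)[j]'(by simpa using hj) = w[j] := by
      simp only [h]
    simpa using h2
  · intro h
    apply List.ext_getElem
    · simp
    · intro i h1 h2
      simp only [word_getElem]
      exact h i h2

theorem word_add (x : ℤ → S) (a : ℤ) (m n : ℕ) :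
    word x a (m + n) = word x a m ++ word x (a + m) n := by
  apply List.ext_getElem
  · simp
  · intro i h1 h2
    by_cases hi : i < m
    · rw [List.getElem_append_left (by simpa using hi)]
      simp
    · rw [List.getElem_append_right (by simpa using hi)]
      simp only [word_getElem, word_length]
      congr 1
      push_cast [Nat.cast_sub (not_lt.1 hi)]
      ring

theorem word_drop (x : ℤ → S) (a : ℤ) (m n : ℕ) :
    (word x a n).drop m = word x (a + m) (n - m) := by
  apply List.ext_getElem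
  · simp
  · intro i h1 h2
    simp only [List.getElem_drop, word_getElem]
    congr 1
    push_cast
    ring

theorem word_take (x : ℤ → S) (a : ℤ) (m n : ℕ) :
    (word x a n).take m = word x a (min m n) := by
  apply List.ext_getElem
  · simp
  · intro i h1 h2
    simp only [List.getElem_take, word_getElem]

theorem word_drop_take (x : ℤ → S) (a : ℤ) (m n k : ℕ) (h : m + k ≤ n) :
    ((word x a n).drop m).take k = word x (a + m) k := by
  rw [word_drop, word_take]
  congr 1
  omega

theorem word_infix_iff {x : ℤ → S} {a : ℤ} {n : ℕ} {u : List S} :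
    u <:+: word x a n ↔ ∃ i : ℕ, i + u.length ≤ n ∧ word x (a + i) u.length = u := by
  constructor
  · rintro ⟨s, t, h⟩
    have hl : s.length + u.length + t.length = n := by
      have := congrArg List.length h
      simpa [add_assoc] using this
    refine ⟨s.length, by omega, ?_⟩
    have h2 : ((word x a n).drop s.length).take u.length = u := by
      rw [← h]
      simp
    rw [word_drop_take _ _ _ _ _ (by omega)] at h2
    exact h2
  · rintro ⟨i, hi, h⟩
    refine ⟨(word x a n).take i, (word x a n).drop (i + u.length), ?_⟩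
    rw [word_take, word_drop, min_eq_left (by omega)]
    nth_rewrite 1 [← h]
    have h3 : n = i + (u.length + (n - (i + u.length))) := by omega
    conv_rhs => rw [h3]
    rw [word_add, word_add, List.append_assoc]
    congr 3
    push_cast
    ring

theorem word_infix_word {x : ℤ → S} {a b : ℤ} {n m : ℕ} (h1 : a ≤ b) (h2 : b + m ≤ a + n) :
    word x b m <:+: word x a n := by
  rw [word_infix_iff]
  refine ⟨(b - a).toNat, ?_, ?_⟩
  · simp
    omega
  · simp only [word_length]
    congr 1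
    omega

/-- Shift by an arbitrary integer. -/
def sh (n : ℤ) (x : ℤ → S) : ℤ → S := fun i => x (i + n)

@[simp] theorem sh_apply (n : ℤ) (x : ℤ → S) (i : ℤ) : sh n x i = x (i + n) := rfl

theorem sh_sh (m n : ℤ) (x : ℤ → S) : sh m (sh n x) = sh (m + n) x := by
  funext i; simp [add_assoc]

@[simp] theorem sh_zero (x : ℤ → S) : sh 0 x = x := by
  funext i; simp

theorem sh_one (x : ℤ → S) : sh 1 x = shift x := rfl

theorem word_sh (x : ℤ → S) (m a : ℤ) (n : ℕ) : word (sh m x) a n = word x (a + m) n := by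
  rw [word_eq_iff]
  intro j _
  simp only [sh_apply]
  congr 1
  ring

theorem mem_Lang_word {X : Set (ℤ → S)} {x : ℤ → S} (hx : x ∈ X) (a : ℤ) (n : ℕ) :
    word x a n ∈ Lang X := ⟨x, hx, a, by simp⟩

theorem Lang_infix {X : Set (ℤ → S)} {u v : List S} (h : u <:+: v) (hv : v ∈ Lang X) :
    u ∈ Lang X := by
  obtain ⟨x, hx, a, ha⟩ := hv
  rw [← ha, word_infix_iff] at h
  obtain ⟨i, _, h⟩ := h
  exact ⟨x, hx, _, h⟩

theorem Lang_mono {X Y : Set (ℤ → S)} (h : X ⊆ Y) : Lang X ⊆ Lang Y := by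
  rintro w ⟨x, hx, a, ha⟩
  exact ⟨x, h hx, a, ha⟩

/-! ### Topology -/

section Top

variable [TopologicalSpace S] [DiscreteTopology S]

theorem isOpen_of_local {P : (ℤ → S) → Prop}
    (h : ∀ x, P x → ∃ m : ℕ, ∀ y, (∀ t : ℤ, |t| ≤ m → y t = x t) → P y) :
    IsOpen {x | P x} := by
  rw [isOpen_iff_mem_nhds]
  intro x hx
  obtain ⟨m, hm⟩ := h x hx
  have : (Set.pi (↑(Finset.Icc (-(m : ℤ)) m)) fun t => {x t}) ∈ nhds x := by
    apply set_pi_mem_nhds (Finset.finite_toSet _)
    intro i _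
    exact (isOpen_discrete {x i}).mem_nhds rfl
  refine Filter.mem_of_superset this ?_
  intro y hy
  refine hm y fun t ht => ?_
  have := hy t (by
    rw [abs_le] at ht
    simpa using ht)
  simpa using this

theorem exists_window {U : Set (ℤ → S)} (hU : IsOpen U) {x : ℤ → S} (hx : x ∈ U) :
    ∃ m : ℕ, ∀ y, (∀ t : ℤ, |t| ≤ m → y t = x t) → y ∈ U := by
  obtain ⟨I, u, hu, hsub⟩ := isOpen_pi_iff.1 hU x hx
  refine ⟨I.sup Int.natAbs, fun y hy => hsub ?_⟩
  intro i hi
  have h1 : |i| ≤ ((I.sup Int.natAbs : ℕ) : ℤ) := by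
    have := Finset.le_sup (f := Int.natAbs) hi
    rw [Int.abs_eq_natAbs]
    exact_mod_cast this
  rw [hy i h1]
  exact (hu i hi).2

theorem mem_of_window {Y : Set (ℤ → S)} (hY : IsClosed Y) {x : ℤ → S}
    (h : ∀ m : ℕ, ∃ y ∈ Y, ∀ t : ℤ, |t| ≤ m → y t = x t) : x ∈ Y := by
  by_contra hx
  obtain ⟨m, hm⟩ := exists_window hY.isOpen_compl hx
  obtain ⟨y, hy, hyx⟩ := h m
  exact hm y hyx hy

theorem IsSubshift.sh_mem {X : Set (ℤ → S)} (hX : IsSubshift X) {x : ℤ → S} (n : ℤ) :
    x ∈ X → sh n x ∈ X := by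
  have h1 : ∀ x, x ∈ X → sh 1 x ∈ X := by
    intro x hx
    rw [sh_one, ← hX.2]
    exact ⟨x, hx, rfl⟩
  have h2 : ∀ x, x ∈ X → sh (-1) x ∈ X := by
    intro x hx
    rw [← hX.2] at hx
    obtain ⟨y, hy, rfl⟩ := hx
    rw [← sh_one, sh_sh]
    simpa using hy
  induction n using Int.induction_on with
  | zero => simp
  | succ n ih =>
    intro hx
    have := h1 _ (ih hx)
    rwa [sh_sh, add_comm] at this
  | pred n ih =>
    intro hx
    have := h2 _ (ih hx)
    rw [sh_sh] at this
    convert this using 2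
    ring

theorem IsSubshift.of_sh {X : Set (ℤ → S)} (hc : IsClosed X)
    (h : ∀ x ∈ X, ∀ n : ℤ, sh n x ∈ X) : IsSubshift X := by
  refine ⟨hc, Set.Subset.antisymm ?_ ?_⟩
  · rintro _ ⟨x, hx, rfl⟩
    exact h x hx 1
  · intro x hx
    refine ⟨sh (-1) x, h x hx _, ?_⟩
    rw [← sh_one, sh_sh]
    simp

/-- Uniformity by compactness. -/
theorem exists_uniform [Finite S] {X : Set (ℤ → S)} (hX : IsClosed X)
    {P : ℕ → (ℤ → S) → Prop}
    (hmono : ∀ n m, n ≤ m → ∀ x, P n x → P m x)
    (hloc : ∀ n x, P n x → ∃ m : ℕ, ∀ y, (∀ t : ℤ, |t| ≤ m → y t = x t) → P n y)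
    (hcov : ∀ x ∈ X, ∃ n, P n x) : ∃ n, ∀ x ∈ X, P n x := by
  have hc : IsCompact X := hX.isCompact
  obtain ⟨n, hn⟩ := hc.elim_directed_cover (fun n => {x | P n x})
    (fun n => isOpen_of_local fun x hx => hloc n x hx)
    (by
      intro x hx
      obtain ⟨n, hn⟩ := hcov x hx
      exact Set.mem_iUnion.2 ⟨n, hn⟩)
    (by
      intro i j
      refine ⟨max i j, ?_, ?_⟩
      · intro x hx; exact hmono _ _ (le_max_left _ _) x hx
      · intro x hx; exact hmono _ _ (le_max_right _ _) x hx)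
  exact ⟨n, fun x hx => hn hx⟩

theorem Lang_extend {X : Set (ℤ → S)} {u : List S} (h : u ∈ Lang X) (a b : ℕ) :
    ∃ x ∈ X, ∃ t : ℤ, word x t u.length = u ∧
      word x (t - a) (a + u.length + b) ∈ Lang X := by
  obtain ⟨x, hx, t, ht⟩ := h
  exact ⟨x, hx, t, ht, mem_Lang_word hx _ _⟩

/-- A subshift is determined by its language. -/
theorem subset_of_Lang_subset {X Y : Set (ℤ → S)} (hY : IsSubshift Y)
    (h : Lang X ⊆ Lang Y) : X ⊆ Y := by
  intro x hx
  refine mem_of_window hY.1 fun m => ?_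
  obtain ⟨y, hy, a, ha⟩ := h (mem_Lang_word hx (-(m : ℤ)) (2 * m + 1))
  rw [word_length, word_eq_iff] at ha
  refine ⟨sh (a + m) y, hY.sh_mem _ hy, fun t ht => ?_⟩
  rw [abs_le] at ht
  have := ha (t + m).toNat (by omega)
  simp only [sh_apply]
  have e : ((t + m).toNat : ℤ) = t + m := by omega
  rw [e] at this
  convert this using 2
  · ring
  · ring

/-- Set of points avoiding a set of words. -/
def Avoids (W : Set (List S)) (x : ℤ → S) : Prop :=
  ∀ w ∈ W, ∀ t : ℤ, word x t w.length ≠ w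

theorem not_avoids_local {W : Set (List S)} {x : ℤ → S} (h : ¬ Avoids W x) :
    ∃ m : ℕ, ∀ y, (∀ t : ℤ, |t| ≤ m → y t = x t) → ¬ Avoids W y := by
  unfold Avoids at h
  push Not at h
  obtain ⟨w, hw, t, ht⟩ := h
  refine ⟨t.natAbs + w.length, fun y hy hav => hav w hw t ?_⟩
  nth_rewrite 2 [← ht]
  rw [word_eq_iff]
  intro j hj
  refine hy _ ?_
  rw [abs_le]
  omega

/-- The orbit closure. -/
def OC (x : ℤ → S) : Set (ℤ → S) :=
  {y | ∀ m : ℕ, ∃ n : ℤ, ∀ t : ℤ, |t| ≤ m → y t = x (t + n)}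

omit [TopologicalSpace S] [DiscreteTopology S] in
theorem self_mem_OC (x : ℤ → S) : x ∈ OC x := fun _ => ⟨0, by simp⟩

theorem OC_isSubshift (x : ℤ → S) : IsSubshift (OC x) := by
  refine IsSubshift.of_sh ?_ ?_
  · rw [← isOpen_compl_iff]
    refine isOpen_of_local fun y hy => ?_
    have hy' : ¬ ∀ m : ℕ, ∃ n : ℤ, ∀ t : ℤ, |t| ≤ m → y t = x (t + n) := hy
    push Not at hy'
    obtain ⟨m, hm⟩ := hy'
    refine ⟨m, fun z hz hzO => ?_⟩
    obtain ⟨n, hn⟩ := hzO m
    obtain ⟨t, ht, hne⟩ := hm n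
    exact hne (by rw [← hz t ht, hn t ht])
  · intro y hy n m
    obtain ⟨k, hk⟩ := hy (m + n.natAbs)
    refine ⟨n + k, fun t ht => ?_⟩
    rw [sh_apply, hk (t + n) (by rw [abs_le] at *; omega)]
    congr 1
    ring

theorem OC_subset {X : Set (ℤ → S)} (hX : IsSubshift X) {x : ℤ → S} (hx : x ∈ X) :
    OC x ⊆ X := by
  intro y hy
  refine mem_of_window hX.1 fun m => ?_
  obtain ⟨n, hn⟩ := hy m
  exact ⟨sh n x, hX.sh_mem n hx, fun t ht => (hn t ht).symm⟩

omit [TopologicalSpace S] [DiscreteTopology S] in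
theorem Lang_OC {x : ℤ → S} {u : List S} :
    u ∈ Lang (OC x) ↔ ∃ t : ℤ, word x t u.length = u := by
  constructor
  · rintro ⟨y, hy, a, ha⟩
    obtain ⟨n, hn⟩ := hy (a.natAbs + u.length)
    refine ⟨a + n, ?_⟩
    nth_rewrite 2 [← ha]
    rw [word_eq_iff]
    intro j hj
    rw [hn (a + j) (by rw [abs_le]; omega)]
    congr 1
    ring
  · rintro ⟨t, ht⟩
    exact ⟨x, self_mem_OC x, t, ht⟩

end Top

end Pool.Agent.MP752584
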