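import Pool.Agent.Lib.MP_752584_lc.Structure

/-!
The combinatorial core: types of long words are described by finitely many monotone bits.
-/

namespace Pool.Agent.MP752584

variable {S : Type*}

/-- The monotone predicate at level `κ`: some point of `X` looks like `z` around `n`, like `z'`
around a later position `n'`, and between the two one sees exactly the words of `Y`. -/
def CC (X : Set (ℤ → S)) (κ : ℕ) (z : ℤ → S) (Y : Set (ℤ → S)) (z' : ℤ → S) : Prop :=
  ∃ d : ℕ, (∀ t : ℤ, (d : ℤ) ≤ t → word z t (κ + 1) ∈ Lang Y) ∧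
    (∀ t : ℤ, t + κ ≤ -(d : ℤ) → word z' t (κ + 1) ∈ Lang Y) ∧
    ∃ x ∈ X, ∃ n n' : ℤ, n + 2 * (d + κ + 1) ≤ n' ∧
      (∀ t : ℤ, |t| ≤ d + κ + 1 → x (n + t) = z t) ∧
      (∀ t : ℤ, |t| ≤ d + κ + 1 → x (n' + t) = z' t) ∧
      (∀ t : ℤ, n + d ≤ t → t + κ ≤ n' - d → word x t (κ + 1) ∈ Lang Y) ∧
      (∀ u ∈ Lang Y, u.length = κ + 1 → ∃ t : ℤ, n ≤ t ∧ t + κ ≤ n' ∧ word x t (κ + 1) = u)

theorem CC_mono {X : Set (ℤ → S)} {κ : ℕ} {z z' : ℤ → S} {Y : Set (ℤ → S)}
    (h : CC X (κ + 1) z Y z') : CC X κ z Y z' := by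
  obtain ⟨d, hz, hz', x, hx, n, n', hn, hw, hw', hm, ha⟩ := h
  refine ⟨d, ?_, ?_, x, hx, n, n', by push_cast at hn; omega, ?_, ?_, ?_, ?_⟩
  · intro t ht
    exact Lang_infix (word_infix_word le_rfl (by push_cast; omega)) (hz t ht)
  · intro t ht
    refine Lang_infix (word_infix_word (a := t - 1) (by omega) (by push_cast; omega))
      (hz' (t - 1) (by push_cast; omega))
  · intro t ht
    exact hw t (by push_cast; omega)
  · intro t ht
    exact hw' t (by push_cast; omega)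
  · intro t h1 h2
    by_cases h3 : t + (κ + 1) ≤ n' - d
    · exact Lang_infix (word_infix_word le_rfl (by push_cast; omega))
        (hm t h1 (by push_cast; omega))
    · refine Lang_infix (word_infix_word (a := t - 1) (by omega) (by push_cast; omega))
        (hm (t - 1) ?_ ?_)
      · push_cast at hn; omega
      · push_cast; omega
  · rintro u ⟨y, hy, b, hb⟩ hu
    obtain ⟨t, h1, h2, h3⟩ := ha (word y b (κ + 1 + 1)) (mem_Lang_word hy _ _) (by simp)
    refine ⟨t, h1, by push_cast at h2; omega, ?_⟩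
    rw [word_eq_iff] at h3
    rw [← hb, hu, word_eq_iff]
    intro j hj
    exact h3 j (by omega)

theorem CC_mono_le {X : Set (ℤ → S)} {κ κ' : ℕ} (hκ : κ ≤ κ') {z z' : ℤ → S}
    {Y : Set (ℤ → S)} (h : CC X κ' z Y z') : CC X κ z Y z' := by
  induction hκ with
  | refl => exact h
  | step _ ih => exact ih (CC_mono h)

/-- If the predicate holds at all levels then all corresponding types are realised. -/
theorem suff {X : Set (ℤ → S)} {z z' : ℤ → S} {Y : Set (ℤ → S)}
    (h : ∀ κ, CC X κ z Y z') (κ : ℕ) (c c' : ℤ) :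
    ∃ x ∈ X, ∃ i j : ℤ, i + κ ≤ j ∧ word x i κ = word z c κ ∧
      word x (j - κ + 1) κ = word z' (c' - κ + 1) κ ∧
      ∀ u : List S, u.length = κ + 1 →
        ((∃ t : ℤ, i ≤ t ∧ t + κ ≤ j ∧ word x t (κ + 1) = u) ↔
          ((∃ t : ℤ, c ≤ t ∧ word z t (κ + 1) = u) ∨ u ∈ Lang Y ∨
            (∃ t : ℤ, t + κ ≤ c' ∧ word z' t (κ + 1) = u))) := by
  obtain ⟨K, hK⟩ : ∃ K : ℕ, K = κ + c.natAbs + c'.natAbs + 1 := ⟨_, rfl⟩
  obtain ⟨d, hz, hz', x, hx, n, n', hn, hw, hw', hm, ha⟩ := h K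
  have hYin : ∀ u ∈ Lang Y, u.length = κ + 1 →
      ∃ t : ℤ, n + c ≤ t ∧ t + κ ≤ n' + c' ∧ word x t (κ + 1) = u := by
    rintro u ⟨y, hy, b, hb⟩ hu
    obtain ⟨t, h1, h2, h3⟩ := ha (word y (b - c.natAbs) (K + 1)) (mem_Lang_word hy _ _) (by simp)
    refine ⟨t + c.natAbs, by omega, by omega, ?_⟩
    rw [word_eq_iff] at h3
    rw [← hb, hu, word_eq_iff]
    intro j hj
    have := h3 (c.natAbs + j) (by omega)
    convert this using 2
    · push_cast; ring
    · push_cast; ring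
  refine ⟨x, hx, n + c, n' + c', by omega, ?_, ?_, ?_⟩
  · rw [word_eq_iff]
    intro j hj
    rw [← hw (c + j) (by rw [abs_le]; omega)]
    congr 1
    ring
  · rw [word_eq_iff]
    intro j hj
    rw [← hw' (c' - κ + 1 + j) (by rw [abs_le]; omega)]
    congr 1
    ring
  · intro u hu
    constructor
    · rintro ⟨t, h1, h2, h3⟩
      by_cases c1 : t ≤ n + d
      · left
        refine ⟨t - n, by omega, ?_⟩
        rw [← h3, word_eq_iff]
        intro j hj
        rw [← hw (t - n + j) (by rw [abs_le]; omega)]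
        congr 1
        ring
      · by_cases c2 : n' - d ≤ t + κ
        · right; right
          refine ⟨t - n', by omega, ?_⟩
          rw [← h3, word_eq_iff]
          intro j hj
          rw [← hw' (t - n' + j) (by rw [abs_le]; omega)]
          congr 1
          ring
        · right; left
          rw [← h3]
          by_cases c3 : t + K ≤ n' - d
          · exact Lang_infix (word_infix_word le_rfl (by push_cast; omega))
              (hm t (by omega) c3)
          · refine Lang_infix (word_infix_word (a := t + κ - K) (by omega)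
              (by push_cast; omega)) (hm (t + κ - K) ?_ ?_)
            · omega
            · omega
    · rintro (⟨t, h1, h2⟩ | h1 | ⟨t, h1, h2⟩)
      · by_cases c1 : t + κ ≤ d + K + 1
        · refine ⟨n + t, by omega, by omega, ?_⟩
          rw [← h2, word_eq_iff]
          intro j hj
          rw [← hw (t + j) (by rw [abs_le]; omega)]
          congr 1
          ring
        · refine hYin u ?_ hu
          rw [← h2]
          exact Lang_infix (word_infix_word le_rfl (by push_cast; omega)) (hz t (by omega))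
      · exact hYin u h1 hu
      · by_cases c1 : -((d : ℤ) + K + 1) ≤ t
        · refine ⟨n' + t, by omega, by omega, ?_⟩
          rw [← h2, word_eq_iff]
          intro j hj
          rw [← hw' (t + j) (by rw [abs_le]; omega)]
          congr 1
          ring
        · refine hYin u ?_ hu
          rw [← h2]
          refine Lang_infix (word_infix_word (a := t + κ - K) (by omega)
              (by push_cast; omega)) (hz' (t + κ - K) ?_)
          omega

/-- `x` looks like `z` (translated so that `i` corresponds to `c`) on the window of radius `ρ`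
around the origin of `z`. -/
def Match (x : ℤ → S) (i : ℤ) (z : ℤ → S) (c : ℤ) (ρ : ℕ) : Prop :=
  ∀ t : ℤ, |c + t| ≤ ρ → x (i + t) = z (c + t)

/-- Long words: description of their type through the two ends. -/
theorem necess [TopologicalSpace S] [DiscreteTopology S] [Finite S]
    {X : Set (ℤ → S)} (hX : IsSubshift X) {κ h d A : ℕ}
    (h1 : ∀ x ∈ X, ∃ Y : Set (ℤ → S), Y ⊆ X ∧
      (∀ y ∈ Y, ∀ t : ℤ, ∃ t' : ℤ, |t'| ≤ h ∧ word x t' (κ + 1) = word y t (κ + 1)) ∧
      word x 0 (κ + 1) ∈ Lang Y)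
    {z z' : ℤ → S} (hz : z ∈ X) (hz' : z' ∈ X)
    (h2 : ∀ t : ℤ, (d : ℤ) ≤ t → word z t (κ + 1) ∈ Lang (om z))
    (h2' : ∀ t : ℤ, t + κ ≤ -(d : ℤ) → word z' t (κ + 1) ∈ Lang (al z'))
    {c c' : ℤ} {ρ ρ' : ℕ} (hA : |c| + ρ ≤ A) (hA' : |c'| + ρ' ≤ A)
    (hρ1 : max c 0 + h + κ + 1 ≤ ρ) (hρ2 : -c ≤ ρ) (hρ3 : d + κ + 1 ≤ ρ)
    (hρ1' : -min c' 0 + h + κ + 1 ≤ ρ') (hρ2' : c' ≤ ρ') (hρ3' : d + κ + 1 ≤ ρ')
    (hR : ∀ t : ℤ, max c 0 ≤ t → ∃ t' : ℤ, max c 0 ≤ t' ∧ t' + κ ≤ ρ ∧
      word z t' (κ + 1) = word z t (κ + 1))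
    (hR' : ∀ t : ℤ, t + κ ≤ min c' 0 → ∃ t' : ℤ, -(ρ' : ℤ) ≤ t' ∧ t' + κ ≤ min c' 0 ∧
      word z' t' (κ + 1) = word z' t (κ + 1))
    {x : ℤ → S} (hx : x ∈ X) {i j : ℤ} (hij : i + 6 * A ≤ j)
    (hM : Match x i z c ρ) (hM' : Match x j z' c' ρ') :
    ∃ Y : Set (ℤ → S), IsSubshift Y ∧ Y ⊆ X ∧ CC X κ z Y z' ∧
      ∀ u : List S, u.length = κ + 1 →
        ((∃ t : ℤ, i ≤ t ∧ t + κ ≤ j ∧ word x t (κ + 1) = u) ↔
          ((∃ t : ℤ, c ≤ t ∧ word z t (κ + 1) = u) ∨ u ∈ Lang Y ∨
            (∃ t : ℤ, t + κ ≤ c' ∧ word z' t (κ + 1) = u))) := by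
  obtain ⟨n, hn⟩ : ∃ n, n = i - c := ⟨_, rfl⟩
  obtain ⟨n', hn'⟩ : ∃ n', n' = j - c' := ⟨_, rfl⟩
  obtain ⟨i₁, hi₁⟩ : ∃ i₁, i₁ = n + max c 0 := ⟨_, rfl⟩
  obtain ⟨j₁, hj₁⟩ : ∃ j₁, j₁ = n' + min c' 0 := ⟨_, rfl⟩
  -- values of `x` near `n` and `n'`
  have hxz : ∀ t : ℤ, |t| ≤ ρ → x (n + t) = z t := by
    intro t ht
    have := hM (t - c) (by rw [show c + (t - c) = t by ring]; exact ht)
    rw [show c + (t - c) = t by ring] at this
    rw [← this, hn]
    congr 1
    ring
  have hxz' : ∀ t : ℤ, |t| ≤ ρ' → x (n' + t) = z' t := by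
    intro t ht
    have := hM' (t - c') (by rw [show c' + (t - c') = t by ring]; exact ht)
    rw [show c' + (t - c') = t by ring] at this
    rw [← this, hn']
    congr 1
    ring
  have hwz : ∀ t : ℤ, -(ρ : ℤ) ≤ t → t + κ ≤ ρ → word x (n + t) (κ + 1) = word z t (κ + 1) := by
    intro t h1 h2
    rw [word_eq_iff]
    intro j hj
    rw [← hxz (t + j) (by rw [abs_le]; omega)]
    congr 1
    ring
  have hwz' : ∀ t : ℤ, -(ρ' : ℤ) ≤ t → t + κ ≤ ρ' →
      word x (n' + t) (κ + 1) = word z' t (κ + 1) := by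
    intro t h1 h2
    rw [word_eq_iff]
    intro j hj
    rw [← hxz' (t + j) (by rw [abs_le]; omega)]
    congr 1
    ring
  have hcA : |c| ≤ A := by omega
  have hcA' : |c'| ≤ A := by omega
  rw [abs_le] at hcA hcA'
  have hac := abs_nonneg c
  have hac' := abs_nonneg c'
  -- the subshift
  let Y : Set (ℤ → S) := {y | y ∈ X ∧ ∀ t : ℤ, ∃ t' : ℤ, i₁ ≤ t' ∧ t' + κ ≤ j₁ ∧
    word x t' (κ + 1) = word y t (κ + 1)}
  have hYX : Y ⊆ X := fun y hy => hy.1
  have hYs : IsSubshift Y := by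
    refine IsSubshift.of_sh ?_ ?_
    · rw [← isOpen_compl_iff]
      refine isOpen_of_local fun y hy => ?_
      by_cases hyX : y ∈ X
      · have hy' : ¬ ∀ t : ℤ, ∃ t' : ℤ, i₁ ≤ t' ∧ t' + κ ≤ j₁ ∧
            word x t' (κ + 1) = word y t (κ + 1) := fun h => hy ⟨hyX, h⟩
        push Not at hy'
        obtain ⟨t, ht⟩ := hy'
        refine ⟨t.natAbs + κ, fun y' hy' hyY => ?_⟩
        obtain ⟨t', h1, h2, h3⟩ := hyY.2 t
        refine ht t' h1 h2 ?_
        rw [h3, word_eq_iff]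
        intro j hj
        exact hy' _ (by rw [abs_le]; omega)
      · obtain ⟨m, hm⟩ := exists_window hX.1.isOpen_compl hyX
        exact ⟨m, fun y' hy' hyY => hm y' hy' hyY.1⟩
    · rintro y ⟨hyX, hy⟩ m
      refine ⟨hX.sh_mem m hyX, fun t => ?_⟩
      obtain ⟨t', h1, h2, h3⟩ := hy (t + m)
      exact ⟨t', h1, h2, by rw [h3, word_sh]⟩
  have hYF : ∀ u ∈ Lang Y, u.length = κ + 1 →
      ∃ t : ℤ, i₁ ≤ t ∧ t + κ ≤ j₁ ∧ word x t (κ + 1) = u := by
    rintro u ⟨y, hy, b, hb⟩ hu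
    obtain ⟨t', h1, h2, h3⟩ := hy.2 b
    exact ⟨t', h1, h2, by rw [h3, ← hu, hb]⟩
  have homY : om z ⊆ Y := by
    intro y hy
    refine ⟨OC_subset hX hz (om_subset_OC z hy), fun t => ?_⟩
    have hmem : word y t (κ + 1) ∈ Lang (om z) := mem_Lang_word hy _ _
    rw [Lang_om hX hz] at hmem
    obtain ⟨s, hs, hs'⟩ := hmem (max c 0)
    rw [word_length] at hs'
    obtain ⟨t', h1, h2, h3⟩ := hR s hs
    refine ⟨n + t', by omega, by omega, ?_⟩
    rw [hwz t' (by omega) h2, h3, hs']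
  have halY : al z' ⊆ Y := by
    intro y hy
    refine ⟨OC_subset hX hz' (al_subset_OC z' hy), fun t => ?_⟩
    have hmem : word y t (κ + 1) ∈ Lang (al z') := mem_Lang_word hy _ _
    rw [Lang_al hX hz'] at hmem
    obtain ⟨s, hs, hs'⟩ := hmem (min c' 0 - κ)
    rw [word_length] at hs'
    obtain ⟨t', h1, h2, h3⟩ := hR' s (by omega)
    refine ⟨n' + t', by omega, by omega, ?_⟩
    rw [hwz' t' (by omega) (by omega), h3, hs']
  have hdeep : ∀ t : ℤ, i₁ + h ≤ t → t + κ + h ≤ j₁ → word x t (κ + 1) ∈ Lang Y := by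
    intro t ht1 ht2
    obtain ⟨Ya, hYaX, hYa, hmem⟩ := h1 (sh t x) (hX.sh_mem t hx)
    have hsub : Ya ⊆ Y := by
      intro y hy
      refine ⟨hYaX hy, fun s => ?_⟩
      obtain ⟨t', ht', h3⟩ := hYa y hy s
      rw [word_sh] at h3
      rw [abs_le] at ht'
      exact ⟨t' + t, by omega, by omega, h3⟩
    have := Lang_mono hsub hmem
    rw [word_sh, zero_add] at this
    exact this
  have hmid : ∀ t : ℤ, n + d ≤ t → t + κ ≤ n' - d → word x t (κ + 1) ∈ Lang Y := by
    intro t ht1 ht2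
    by_cases c1 : t < i₁ + h
    · have h3 := hwz (t - n) (by omega) (by omega)
      rw [show n + (t - n) = t by ring] at h3
      rw [h3]
      exact Lang_mono homY (h2 _ (by omega))
    · by_cases c2 : j₁ < t + κ + h
      · have h3 := hwz' (t - n') (by omega) (by omega)
        rw [show n' + (t - n') = t by ring] at h3
        rw [h3]
        exact Lang_mono halY (h2' _ (by omega))
      · exact hdeep t (by omega) (by omega)
  refine ⟨Y, hYs, hYX, ?_, ?_⟩
  · refine ⟨d, fun t ht => Lang_mono homY (h2 t ht), fun t ht => Lang_mono halY (h2' t ht),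
      x, hx, n, n', by omega, ?_, ?_, hmid, ?_⟩
    · intro t ht
      exact hxz t (by omega)
    · intro t ht
      exact hxz' t (by omega)
    · intro u hu hul
      obtain ⟨t, h3, h4, h5⟩ := hYF u hu hul
      exact ⟨t, by omega, by omega, h5⟩
  · intro u hu
    constructor
    · rintro ⟨t, h3, h4, h5⟩
      by_cases c1 : t < i₁ + h
      · left
        refine ⟨t - n, by omega, ?_⟩
        rw [← hwz (t - n) (by omega) (by omega), ← h5]
        congr 1
        ring
      · by_cases c2 : j₁ < t + κ + h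
        · right; right
          refine ⟨t - n', by omega, ?_⟩
          rw [← hwz' (t - n') (by omega) (by omega), ← h5]
          congr 1
          ring
        · right; left
          rw [← h5]
          exact hdeep t (by omega) (by omega)
    · rintro (⟨t, h3, h4⟩ | h3 | ⟨t, h3, h4⟩)
      · by_cases c1 : max c 0 ≤ t
        · obtain ⟨t', h5, h6, h7⟩ := hR t c1
          refine ⟨n + t', by omega, by omega, ?_⟩
          rw [hwz t' (by omega) h6, h7, h4]
        · refine ⟨n + t, by omega, by omega, ?_⟩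
          rw [hwz t (by omega) (by omega), h4]
      · obtain ⟨t, h5, h6, h7⟩ := hYF u h3 hu
        exact ⟨t, by omega, by omega, h7⟩
      · by_cases c1 : t + κ ≤ min c' 0
        · obtain ⟨t', h5, h6, h7⟩ := hR' t c1
          refine ⟨n' + t', by omega, by omega, ?_⟩
          rw [hwz' t' (by omega) (by omega), h7, h4]
        · refine ⟨n' + t, by omega, by omega, ?_⟩
          rw [hwz' t (by omega) (by omega), h4]

end Pool.Agent.MP752584
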