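import Pool.Agent.Lib.MP_752584_lc.Facts
import Pool.Agent.Lib.MP_752584_lc.Core

/-!
The certificate for the fact that a type is not realised.
-/

namespace Pool.Agent.MP752584

variable {S : Type*}

/-- Two words of length at least `κ + 1` with the same prefix and suffix of length `κ` and the
same factors of length `κ + 1`. -/
def SameType (κ : ℕ) (u v : List S) : Prop :=
  κ + 1 ≤ u.length ∧ κ + 1 ≤ v.length ∧ u.take κ = v.take κ ∧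
    u.drop (u.length - κ) = v.drop (v.length - κ) ∧
    ∀ w : List S, w.length = κ + 1 → (w <:+: u ↔ w <:+: v)

def C1 (X : Set (ℤ → S)) (Ys : Finset (Set (ℤ → S))) (κ h : ℕ) : Prop :=
  ∀ V : List S, V.length = 2 * h + κ + 1 → V ∈ Lang X →
    ∃ Y ∈ Ys, (∀ u : List S, u.length = κ + 1 → u ∈ Lang Y → u <:+: V) ∧
      (V.drop h).take (κ + 1) ∈ Lang Y

def C2 (z : ℤ → S) (κ d : ℕ) : Prop :=
  ∀ u : List S, u.length = κ + 1 → u ∈ Lang (om z) ∨ NR z u d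

def C2' (z : ℤ → S) (κ d : ℕ) : Prop :=
  ∀ u : List S, u.length = κ + 1 → u ∈ Lang (al z) ∨ NL z u d

def LEnd (κ h d A : ℕ) (z : ℤ → S) (V : List S) (a ρ : ℕ) : Prop :=
  a + 2 * ρ ≤ 2 * A ∧ (V.drop a).take (2 * ρ + 1) = zw z ρ ∧
    (A - (a + ρ)) + h + κ + 1 ≤ ρ ∧ a ≤ A ∧ d + κ + 1 ≤ ρ ∧
    ∀ u : List S, u.length = κ + 1 →
      u <:+: (zw z ρ).drop (ρ + (A - (a + ρ))) ∨ NR z u (A - (a + ρ))

def REnd (κ h d A : ℕ) (z : ℤ → S) (V : List S) (a ρ : ℕ) : Prop :=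
  a + 2 * ρ ≤ 2 * A ∧ (V.drop a).take (2 * ρ + 1) = zw z ρ ∧
    ((a + ρ) - A) + h + κ + 1 ≤ ρ ∧ A ≤ a + 2 * ρ ∧ d + κ + 1 ≤ ρ ∧
    ∀ u : List S, u.length = κ + 1 →
      u <:+: (zw z ρ).take (ρ - ((a + ρ) - A) + 1) ∨ NL z u ((a + ρ) - A)

def NE (κ A : ℕ) (r : List S) (z : ℤ → S) (Y : Set (ℤ → S)) (z' : ℤ → S)
    (a ρ a' ρ' : ℕ) : Prop :=
  ∃ u : List S, u.length = κ + 1 ∧
    ¬ (u <:+: r ↔ (u <:+: (zw z ρ).drop (A - a) ∨ u ∈ Lang Y ∨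
      u <:+: (zw z' ρ').take (A - a' + 1)))

def Phi (X : Set (ℤ → S)) (Z : Finset (ℤ → S)) (Ys : Finset (Set (ℤ → S))) (κ : ℕ)
    (r : List S) : Prop :=
  ∃ hdA : ℕ × ℕ × ℕ, κ ≤ hdA.2.2 ∧ C1 X Ys κ hdA.1 ∧
    (∀ z ∈ Z, C2 z κ hdA.2.1 ∧ C2' z κ hdA.2.1) ∧
    (∀ V : List S, V.length < 6 * hdA.2.2 + 1 → V ∈ Lang X → ¬ SameType κ r V) ∧
    ∀ V : List S, V.length = 2 * hdA.2.2 + 1 →
      (V ∈ Lang X → (V.drop hdA.2.2).take κ = r.take κ →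
      ∀ V' : List S, V'.length = 2 * hdA.2.2 + 1 →
        (V' ∈ Lang X → (V'.drop (hdA.2.2 + 1 - κ)).take κ = r.drop (r.length - κ) →
        ∃ z ∈ Z, ∃ z' ∈ Z, ∃ q : (ℕ × ℕ) × (ℕ × ℕ),
          LEnd κ hdA.1 hdA.2.1 hdA.2.2 z V q.1.1 q.1.2 ∧
          REnd κ hdA.1 hdA.2.1 hdA.2.2 z' V' q.2.1 q.2.2 ∧
          ∀ Y ∈ Ys, (∀ κ', CC X κ' z Y z') →
            NE κ hdA.2.2 r z Y z' q.1.1 q.1.2 q.2.1 q.2.2))

/-! ### Consequences of the pieces of the certificate -/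

theorem C1.apply {X : Set (ℤ → S)} {Ys : Finset (Set (ℤ → S))} {κ h : ℕ}
    (H : C1 X Ys κ h) (hYs : ∀ Y ∈ Ys, Y ⊆ X) :
    ∀ x ∈ X, ∃ Y : Set (ℤ → S), Y ⊆ X ∧
      (∀ y ∈ Y, ∀ t : ℤ, ∃ t' : ℤ, |t'| ≤ h ∧ word x t' (κ + 1) = word y t (κ + 1)) ∧
      word x 0 (κ + 1) ∈ Lang Y := by
  intro x hx
  obtain ⟨Y, hY, h1, h2⟩ := H (word x (-(h : ℤ)) (2 * h + κ + 1)) (by simp)
    (mem_Lang_word hx _ _)
  refine ⟨Y, hYs Y hY, fun y hy t => ?_, ?_⟩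
  · have h3 := h1 (word y t (κ + 1)) (by simp) (mem_Lang_word hy _ _)
    rw [word_infix_iff] at h3
    obtain ⟨i, hi, h4⟩ := h3
    rw [word_length] at h4 hi
    exact ⟨-(h : ℤ) + i, by rw [abs_le]; omega, h4⟩
  · rw [word_drop_take _ _ _ _ _ (by omega)] at h2
    simpa using h2

theorem C2.apply {z : ℤ → S} {κ d : ℕ} (H : C2 z κ d) :
    ∀ t : ℤ, (d : ℤ) ≤ t → word z t (κ + 1) ∈ Lang (om z) := by
  intro t ht
  rcases H (word z t (κ + 1)) (by simp) with h | h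
  · exact h
  · exact absurd (by simp) (h t ht)

theorem C2'.apply {z : ℤ → S} {κ d : ℕ} (H : C2' z κ d) :
    ∀ t : ℤ, t + κ ≤ -(d : ℤ) → word z t (κ + 1) ∈ Lang (al z) := by
  intro t ht
  rcases H (word z t (κ + 1)) (by simp) with h | h
  · exact h
  · exact absurd (by simp) (h t (by simp; omega))

theorem match_of_window {x z : ℤ → S} {i : ℤ} {A a ρ : ℕ} (h1 : a + 2 * ρ ≤ 2 * A)
    (h : ((word x (i - A) (2 * A + 1)).drop a).take (2 * ρ + 1) = zw z ρ) :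
    Match x i z ((A : ℤ) - a - ρ) ρ := by
  intro t ht
  rw [abs_le] at ht
  rw [word_drop_take _ _ _ _ _ (by omega), zw, word_eq_iff] at h
  have := h ((A : ℤ) - a + t).toNat (by omega)
  convert this using 2
  · omega
  · omega

theorem LEnd.hR {κ h d A : ℕ} {z : ℤ → S} {V : List S} {a ρ : ℕ} (H : LEnd κ h d A z V a ρ) :
    ∀ t : ℤ, max ((A : ℤ) - a - ρ) 0 ≤ t → ∃ t' : ℤ, max ((A : ℤ) - a - ρ) 0 ≤ t' ∧
      t' + κ ≤ ρ ∧ word z t' (κ + 1) = word z t (κ + 1) := by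
  intro t ht
  obtain ⟨h1, h2, h3, h4, h5, h6⟩ := H
  rcases h6 (word z t (κ + 1)) (by simp) with h7 | h7
  · rw [zw, word_drop, word_infix_iff] at h7
    obtain ⟨j, hj, h8⟩ := h7
    rw [word_length] at hj h8
    refine ⟨_, ?_, ?_, h8⟩
    · push_cast
      omega
    · push_cast
      omega
  · exact absurd (by simp) (h7 t (by omega))

theorem REnd.hR {κ h d A : ℕ} {z : ℤ → S} {V : List S} {a ρ : ℕ} (H : REnd κ h d A z V a ρ) :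
    ∀ t : ℤ, t + κ ≤ min ((A : ℤ) - a - ρ) 0 → ∃ t' : ℤ, -(ρ : ℤ) ≤ t' ∧
      t' + κ ≤ min ((A : ℤ) - a - ρ) 0 ∧ word z t' (κ + 1) = word z t (κ + 1) := by
  intro t ht
  obtain ⟨h1, h2, h3, h4, h5, h6⟩ := H
  rcases h6 (word z t (κ + 1)) (by simp) with h7 | h7
  · rw [zw, word_take, word_infix_iff] at h7
    obtain ⟨j, hj, h8⟩ := h7
    rw [word_length] at hj h8
    refine ⟨_, ?_, ?_, h8⟩
    · omega
    · omega
  · exact absurd (by simp) (h7 t (by simp; omega))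

theorem LEnd.occ_iff {κ h d A : ℕ} {z : ℤ → S} {V : List S} {a ρ : ℕ}
    (H : LEnd κ h d A z V a ρ) {u : List S} (hu : u.length = κ + 1) :
    u <:+: (zw z ρ).drop (A - a) ↔
      ∃ t : ℤ, ((A : ℤ) - a - ρ) ≤ t ∧ word z t (κ + 1) = u := by
  have hR := H.hR
  obtain ⟨h1, h2, h3, h4, h5, h6⟩ := H
  rw [zw, word_drop, word_infix_iff, hu]
  constructor
  · rintro ⟨i, h7, h8⟩
    exact ⟨_, by omega, h8⟩
  · rintro ⟨t, h7, h8⟩
    by_cases c1 : max ((A : ℤ) - a - ρ) 0 ≤ t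
    · obtain ⟨t', h9, h10, h11⟩ := hR t c1
      refine ⟨(t' + ρ - (A - a : ℕ)).toNat, by omega, ?_⟩
      rw [← h8, ← h11]
      congr 1
      omega
    · refine ⟨(t + ρ - (A - a : ℕ)).toNat, by omega, ?_⟩
      rw [← h8]
      congr 1
      omega

theorem REnd.occ_iff {κ h d A : ℕ} {z : ℤ → S} {V : List S} {a ρ : ℕ}
    (H : REnd κ h d A z V a ρ) {u : List S} (hu : u.length = κ + 1) :
    u <:+: (zw z ρ).take (A - a + 1) ↔
      ∃ t : ℤ, t + κ ≤ ((A : ℤ) - a - ρ) ∧ word z t (κ + 1) = u := by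
  have hR := H.hR
  obtain ⟨h1, h2, h3, h4, h5, h6⟩ := H
  rw [zw, word_take, word_infix_iff, hu]
  constructor
  · rintro ⟨i, h7, h8⟩
    exact ⟨_, by omega, h8⟩
  · rintro ⟨t, h7, h8⟩
    by_cases c1 : t + κ ≤ min ((A : ℤ) - a - ρ) 0
    · obtain ⟨t', h9, h10, h11⟩ := hR t c1
      refine ⟨(t' + ρ).toNat, by omega, ?_⟩
      rw [← h8, ← h11]
      congr 1
      omega
    · refine ⟨(t + ρ).toNat, by omega, ?_⟩
      rw [← h8]
      congr 1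
      omega

end Pool.Agent.MP752584
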