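import Mathlib

/-!
Definitions used in the statement of the theorem: subshifts, their languages, quasiminimality,
finite automata given by finite lists, locally testable languages, and decidability of the
model-checking problem.
-/

namespace Pool.Agent.MP752584

variable {S : Type*}

/-- The left shift on bi-infinite sequences: `σ(x)_i = x_{i+1}`. -/
def shift (x : ℤ → S) : ℤ → S := fun i => x (i + 1)

/-- A subshift: a closed set `X` of bi-infinite sequences with `σ(X) = X`. -/
def IsSubshift [TopologicalSpace S] (X : Set (ℤ → S)) : Prop :=
  IsClosed X ∧ shift '' X = X

/-- The word `x_a x_{a+1} ... x_{a+n-1}` of length `n` which occurs in `x` at position `a`. -/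
def word (x : ℤ → S) (a : ℤ) (n : ℕ) : List S :=
  (List.range n).map fun j : ℕ => x (a + (j : ℤ))

/-- The language `B(X)`: the finite words which occur in some point of `X`. -/
def Lang (X : Set (ℤ → S)) : Set (List S) :=
  {w | ∃ x ∈ X, ∃ a : ℤ, word x a w.length = w}

/-- `X` is quasiminimal: it has only finitely many proper subshifts. -/
def Quasiminimal [TopologicalSpace S] (X : Set (ℤ → S)) : Prop :=
  {Y : Set (ℤ → S) | IsSubshift Y ∧ Y ⊂ X}.Finite

/-- `L` is locally testable: there is `k ≥ 1` such that, for words of length at least `k`,
membership in `L` depends only on the first `k - 1` letters, the last `k - 1` letters and the set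
of factors of length `k`. -/
def LocallyTestable (L : Set (List S)) : Prop :=
  ∃ k : ℕ, 1 ≤ k ∧ ∀ u v : List S, k ≤ u.length → k ≤ v.length →
    u.take (k - 1) = v.take (k - 1) →
    u.drop (u.length - (k - 1)) = v.drop (v.length - (k - 1)) →
    (∀ w : List S, w.length = k → (w <:+: u ↔ w <:+: v)) → (u ∈ L ↔ v ∈ L)

/-- A finite (nondeterministic) automaton over `S`, given by three finite lists: the initial
states, the transitions `(q, a, q')`, and the accepting states. States are natural numbers. -/
abbrev Automaton (S : Type*) := List ℕ × List (ℕ × S × ℕ) × List ℕ

/-- The nondeterministic automaton (in the sense of Mathlib) described by the lists. -/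
def toNFA (A : Automaton S) : NFA S ℕ where
  step q a := {q' | (q, a, q') ∈ A.2.1}
  start := {q | q ∈ A.1}
  accept := {q | q ∈ A.2.2}

/-- The language accepted by the automaton. -/
def accepted (A : Automaton S) : Set (List S) := {w | w ∈ (toNFA A).accepts}

/-- The model-checking problem of `X` for the class `C` of regular languages is decidable: there is
a partial recursive function which on every finite automaton whose language belongs to `C` halts
and outputs whether this language meets `B(X)`. -/
def ModelCheckingDecidable [Primcodable S] (X : Set (ℤ → S)) (C : Set (Set (List S))) : Prop :=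
  ∃ f : Automaton S →. Bool, Partrec f ∧ ∀ A : Automaton S, accepted A ∈ C →
    ∃ b ∈ f A, (b = true ↔ (accepted A ∩ Lang X).Nonempty)

end Pool.Agent.MP752584
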