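import Pool.Agent.Lib.MP_752584_lc.Structure
import Pool.Agent.Lib.MP_752584_lc.Comp

/-!
Semi-decidability of the basic facts about the points of a subshift.
-/

namespace Pool.Agent.MP752584

variable {S : Type*} [TopologicalSpace S] [DiscreteTopology S]

section NoComp

variable [Finite S]

/-- Certificate for the fact that no point of `X` avoiding `W` contains `u`. -/
def AvCert (X : Set (ℤ → S)) (W : Finset (List S)) (L : ℕ) (u : List S) : Prop :=
  ∀ V : List S, V.length = 2 * L + u.length → V ∈ Lang X → (V.drop L).take u.length = u →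
    ∃ w ∈ W, w <:+: V

theorem avoid_iff {X : Set (ℤ → S)} (hX : IsSubshift X) (W : Finset (List S)) (u : List S) :
    (∀ x ∈ X, Avoids (W : Set (List S)) x → ∀ t : ℤ, word x t u.length ≠ u) ↔
      ∃ L, AvCert X W L u := by
  constructor
  · intro h
    obtain ⟨L, hL⟩ : ∃ L : ℕ, ∀ x ∈ X, word x 0 u.length = u →
        ∃ w ∈ W, w <:+: word x (-(L : ℤ)) (2 * L + u.length) := by
      refine exists_uniform hX.1 ?_ ?_ ?_
      · intro n m hnm x hx hxu
        obtain ⟨w, hw, hw'⟩ := hx hxu
        exact ⟨w, hw, hw'.trans (word_infix_word (by omega) (by push_cast; omega))⟩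
      · intro n x hx
        refine ⟨n + u.length, fun y hy hyu => ?_⟩
        have e1 : word x 0 u.length = u := by
          rw [← hyu, word_length, word_eq_iff]
          intro j hj
          exact (hy _ (by rw [abs_le]; push_cast; omega)).symm
        obtain ⟨w, hw, hw'⟩ := hx e1
        refine ⟨w, hw, ?_⟩
        convert hw' using 1
        rw [word_eq_iff]
        intro j hj
        exact hy _ (by rw [abs_le]; push_cast; omega)
      · intro x hx
        by_cases hxu : word x 0 u.length = u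
        · have hav : ¬ Avoids (W : Set (List S)) x := fun hav => h x hx hav 0 hxu
          unfold Avoids at hav
          push Not at hav
          obtain ⟨w, hw, t, ht⟩ := hav
          refine ⟨t.natAbs + w.length, fun _ => ⟨w, hw, ?_⟩⟩
          nth_rewrite 1 [← ht]
          exact word_infix_word (by omega) (by omega)
        · exact ⟨0, fun h => absurd h hxu⟩
    refine ⟨L, fun V hV hVX hc => ?_⟩
    obtain ⟨y, hy, b, hb⟩ := hVX
    have e1 : word (sh (b + L) y) (-(L : ℤ)) (2 * L + u.length) = V := by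
      rw [word_sh, ← hb, ← hV]
      simp
    have e2 : word (sh (b + L) y) 0 u.length = u := by
      rw [← hc, ← e1, word_drop_take _ _ _ _ _ (by simp; omega)]
      simp
    obtain ⟨w, hw, hw'⟩ := hL _ (hX.sh_mem _ hy) e2
    exact ⟨w, hw, by rwa [e1] at hw'⟩
  · rintro ⟨L, hL⟩ x hx hav t ht
    obtain ⟨w, hw, hw'⟩ := hL (word x (t - L) (2 * L + u.length)) (by simp)
      (mem_Lang_word hx _ _) (by
        rw [word_drop_take _ _ _ _ _ (by omega)]
        rw [sub_add_cancel]; exact ht)
    rw [word_infix_iff] at hw'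
    obtain ⟨i, _, hi⟩ := hw'
    exact hav w hw _ hi

/-- The central window of radius `ρ` of `z`. -/
def zw (z : ℤ → S) (ρ : ℕ) : List S := word z (-(ρ : ℤ)) (2 * ρ + 1)

omit [TopologicalSpace S] [DiscreteTopology S] [Finite S] in
@[simp] theorem zw_length (z : ℤ → S) (ρ : ℕ) : (zw z ρ).length = 2 * ρ + 1 := by simp [zw]

/-- Certificate for the value of a window. -/
def ZwCert (X : Set (ℤ → S)) (W : Finset (List S)) (m : ℕ) (z : ℤ → S) (L ρ : ℕ)
    (v : List S) : Prop :=
  ρ ≤ L ∧ m ≤ L ∧ ∀ V : List S, V.length = 2 * L + 1 → V ∈ Lang X →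
    (V.drop (L - m)).take (2 * m + 1) = zw z m →
      (∃ w ∈ W, w <:+: V) ∨ (V.drop (L - ρ)).take (2 * ρ + 1) = v

omit [TopologicalSpace S] [DiscreteTopology S] [Finite S] in
theorem center_of_word {y : ℤ → S} {b : ℤ} {L ρ : ℕ} (h : ρ ≤ L) :
    ((word y b (2 * L + 1)).drop (L - ρ)).take (2 * ρ + 1) =
      word (sh (b + L) y) (-(ρ : ℤ)) (2 * ρ + 1) := by
  rw [word_drop_take _ _ _ _ _ (by omega), word_sh]
  congr 1
  omega

theorem zw_iff {X : Set (ℤ → S)} (hX : IsSubshift X) {z : ℤ → S} (hz : z ∈ X) {m : ℕ}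
    (hm : ∀ y ∈ OC z, (∀ t : ℤ, |t| ≤ m → y t = z t) → y = z) {W : Finset (List S)}
    (hW : ∀ w ∈ W, w ∉ Lang (OC z))
    (hWX : ∀ x ∈ X, Avoids (W : Set (List S)) x → x ∈ OC z) (ρ : ℕ) (v : List S) :
    zw z ρ = v ↔ ∃ L, ZwCert X W m z L ρ v := by
  constructor
  · intro h
    obtain ⟨L, hL⟩ : ∃ L : ℕ, ∀ x ∈ X, (zw x m = zw z m) →
        (∃ w ∈ W, w <:+: word x (-(L : ℤ)) (2 * L + 1)) ∨ zw x ρ = v := by
      refine exists_uniform hX.1 ?_ ?_ ?_
      · intro n m hnm x hx hxu
        rcases hx hxu with ⟨w, hw, hw'⟩ | h1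
        · exact Or.inl ⟨w, hw, hw'.trans (word_infix_word (by omega) (by push_cast; omega))⟩
        · exact Or.inr h1
      · intro n x hx
        refine ⟨n + m + ρ, fun y hy hyu => ?_⟩
        have e1 : zw x m = zw z m := by
          rw [← hyu, zw, zw, word_eq_iff]
          intro j hj
          exact (hy _ (by rw [abs_le]; push_cast; omega)).symm
        rcases hx e1 with ⟨w, hw, hw'⟩ | h1
        · refine Or.inl ⟨w, hw, ?_⟩
          convert hw' using 1
          rw [word_eq_iff]
          intro j hj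
          exact hy _ (by rw [abs_le]; push_cast; omega)
        · right
          rw [← h1, zw, zw, word_eq_iff]
          intro j hj
          exact hy _ (by rw [abs_le]; push_cast; omega)
      · intro x hx
        by_cases hxu : zw x m = zw z m
        · by_cases hav : Avoids (W : Set (List S)) x
          · refine ⟨0, fun _ => Or.inr ?_⟩
            have : x = z := by
              refine hm x (hWX x hx hav) fun t ht => ?_
              rw [abs_le] at ht
              rw [zw, zw, word_eq_iff] at hxu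
              have := hxu (t + m).toNat (by omega)
              rw [show (-(m : ℤ) + ((t + m).toNat : ℤ)) = t by omega] at this
              exact this
            rw [this, h]
          · unfold Avoids at hav
            push Not at hav
            obtain ⟨w, hw, t, ht⟩ := hav
            refine ⟨t.natAbs + w.length, fun _ => Or.inl ⟨w, hw, ?_⟩⟩
            nth_rewrite 1 [← ht]
            exact word_infix_word (by omega) (by omega)
        · exact ⟨0, fun h => absurd h hxu⟩
    refine ⟨L + m + ρ, by omega, by omega, fun V hV hVX hc => ?_⟩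
    obtain ⟨y, hy, b, hb⟩ := hVX
    rw [hV] at hb
    rw [← hb, center_of_word (by omega)] at hc
    rcases hL _ (hX.sh_mem _ hy) hc with ⟨w, hw, hw'⟩ | h1
    · refine Or.inl ⟨w, hw, hw'.trans ?_⟩
      rw [← hb, word_sh]
      exact word_infix_word (by omega) (by omega)
    · right
      rw [← hb, center_of_word (by omega)]
      exact h1
  · rintro ⟨L, h1, h2, h3⟩
    rcases h3 (zw z L) (by simp) (mem_Lang_word hz _ _) (by
      rw [zw, center_of_word h2, zw]
      simp) with ⟨w, hw, hw'⟩ | h4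
    · exfalso
      refine hW w hw (Lang_infix hw' (mem_Lang_word (self_mem_OC z) _ _))
    · rw [← h4]
      simp only [zw]
      rw [center_of_word h1]
      simp

/-- `u` does not occur in `z` at any position `≥ e`. -/
def NR (z : ℤ → S) (u : List S) (e : ℕ) : Prop := ∀ t : ℤ, (e : ℤ) ≤ t → word z t u.length ≠ u

/-- `u` does not occur in `z` at any position with end `≤ -e`. -/
def NL (z : ℤ → S) (u : List S) (e : ℕ) : Prop :=
  ∀ t : ℤ, t + u.length ≤ -(e : ℤ) + 1 → word z t u.length ≠ u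

theorem NR_iff {X : Set (ℤ → S)} (hX : IsSubshift X) {z : ℤ → S} (hz : z ∈ X)
    {W : Finset (List S)} {a : ℕ} (hWX : ∀ x ∈ X, Avoids (W : Set (List S)) x → x ∈ om z)
    (hWa : ∀ w ∈ W, ∀ t : ℤ, (a : ℤ) ≤ t → word z t w.length ≠ w) (u : List S) (e : ℕ) :
    NR z u e ↔ ∃ L Q, AvCert X W L u ∧ a + L + u.length ≤ Q ∧ e ≤ Q ∧
      ¬ u <:+: (zw z Q).drop (Q + e) := by
  constructor
  · intro h
    have h1 : u ∉ Lang (om z) := by
      rw [Lang_om hX hz]
      push Not
      exact ⟨e, fun t ht => h t ht⟩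
    obtain ⟨L, hL⟩ := (avoid_iff hX W u).1 fun x hx hav t ht => h1 ⟨x, hWX x hx hav, t, ht⟩
    refine ⟨L, a + L + u.length + e, hL, by omega, by omega, ?_⟩
    rw [zw, word_drop, word_infix_iff]
    rintro ⟨i, _, hi⟩
    refine h _ ?_ hi
    push_cast
    omega
  · rintro ⟨L, Q, hL, h1, h2, h3⟩ t ht htu
    by_cases c1 : t + u.length ≤ Q + 1
    · apply h3
      rw [zw, word_drop, word_infix_iff]
      refine ⟨(t - e).toNat, by omega, ?_⟩
      rw [← htu, word_length]
      congr 1
      push_cast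
      omega
    · obtain ⟨w, hw, hw'⟩ := hL (word z (t - L) (2 * L + u.length)) (by simp)
        (mem_Lang_word hz _ _) (by
          rw [word_drop_take _ _ _ _ _ (by omega)]
          rw [sub_add_cancel]; exact htu)
      rw [word_infix_iff] at hw'
      obtain ⟨i, _, hi⟩ := hw'
      exact hWa w hw _ (by omega) hi

theorem NL_iff {X : Set (ℤ → S)} (hX : IsSubshift X) {z : ℤ → S} (hz : z ∈ X)
    {W : Finset (List S)} {a : ℕ} (hWX : ∀ x ∈ X, Avoids (W : Set (List S)) x → x ∈ al z)
    (hWa : ∀ w ∈ W, ∀ t : ℤ, t ≤ -(a : ℤ) → word z t w.length ≠ w) (u : List S) (e : ℕ) :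
    NL z u e ↔ ∃ L Q, AvCert X W L u ∧ a + L + u.length ≤ Q ∧ e ≤ Q ∧
      ¬ u <:+: (zw z Q).take (Q - e + 1) := by
  constructor
  · intro h
    have h1 : u ∉ Lang (al z) := by
      rw [Lang_al hX hz]
      push Not
      exact ⟨-(e : ℤ) + 1 - u.length, fun t ht => h t (by omega)⟩
    obtain ⟨L, hL⟩ := (avoid_iff hX W u).1 fun x hx hav t ht => h1 ⟨x, hWX x hx hav, t, ht⟩
    refine ⟨L, a + L + u.length + e, hL, by omega, by omega, ?_⟩
    rw [zw, word_take, word_infix_iff]
    rintro ⟨i, h2, hi⟩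
    refine h _ ?_ hi
    push_cast
    omega
  · rintro ⟨L, Q, hL, h1, h2, h3⟩ t ht htu
    by_cases c1 : -(Q : ℤ) ≤ t
    · apply h3
      rw [zw, word_take, word_infix_iff]
      refine ⟨(t + Q).toNat, by omega, ?_⟩
      rw [← htu, word_length]
      congr 1
      omega
    · obtain ⟨w, hw, hw'⟩ := hL (word z (t - L) (2 * L + u.length)) (by simp)
        (mem_Lang_word hz _ _) (by
          rw [word_drop_take _ _ _ _ _ (by omega)]
          rw [sub_add_cancel]; exact htu)
      rw [word_infix_iff] at hw'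
      obtain ⟨i, h4, hi⟩ := hw'
      exact hWa w hw _ (by omega) hi

end NoComp

section Computability

variable [Fintype S] [Primcodable S] {α : Type*} [Primcodable α]

omit [TopologicalSpace S] [DiscreteTopology S] in
theorem AvCert_CD {X : Set (ℤ → S)} (hB : CD (fun w => w ∈ Lang X)) (W : Finset (List S)) :
    CD (fun x : ℕ × List S => AvCert X W x.1 x.2) := by
  refine CD.all_words (b := fun x : ℕ × List S => 2 * x.1 + x.2.length)
    (p := fun x V => V ∈ Lang X → (V.drop x.1).take x.2.length = x.2 → ∃ w ∈ W, w <:+: V)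
    ?_ (by fun_prop)
  refine (hB.comp (by fun_prop)).imp ((CD.eq (by fun_prop) (by fun_prop)).imp ?_)
  exact CD.ex_finset W fun w _ => CD.occ (by fun_prop) (by fun_prop)

/-- The standing data: a countable subshift with finitely many subsystems and decidable language. -/
structure Std (X : Set (ℤ → S)) : Prop where
  sub : IsSubshift X
  cnt : X.Countable
  fin : {Y : Set (ℤ → S) | IsSubshift Y ∧ Y ⊆ X}.Finite
  dec : CD (fun w : List S => w ∈ Lang X)

theorem Std.zw_computable {X : Set (ℤ → S)} (h : Std X) {z : ℤ → S} (hz : z ∈ X) :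
    Computable (zw z) := by
  obtain ⟨m, hm⟩ := isolated h.sub h.cnt hz
  obtain ⟨W, hW, hWX⟩ := exists_avoid h.sub h.fin (OC_isSubshift z)
  refine computable_of_graph ?_
  refine SD.of_eq (p := fun x : ℕ × List S => ∃ L, ZwCert X W m z L x.1 x.2) ?_
    fun x => (zw_iff h.sub hz hm hW hWX x.1 x.2).symm
  refine SD.ex (p := fun (x : ℕ × List S) L => ZwCert X W m z L x.1 x.2) ?_
  refine (SD.le (by fun_prop) (by fun_prop)).and ((SD.le (by fun_prop) (by fun_prop)).and ?_)
  refine SD.all_words (b := fun x : (ℕ × List S) × ℕ => 2 * x.2 + 1)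
    (p := fun x V => V ∈ Lang X → (V.drop (x.2 - m)).take (2 * m + 1) = zw z m →
      (∃ w ∈ W, w <:+: V) ∨ (V.drop (x.2 - x.1.1)).take (2 * x.1.1 + 1) = x.1.2)
    ?_ (by fun_prop)
  refine SD.imp (h.dec.comp (by fun_prop)) (SD.imp (CD.eq (by fun_prop) (by fun_prop)) ?_)
  refine SD.or ?_ (SD.eq (by fun_prop) (by fun_prop))
  exact SD.ex_finset W fun w _ => (CD.occ (by fun_prop) (by fun_prop)).1

theorem Std.SD_NR {X : Set (ℤ → S)} (h : Std X) {z : ℤ → S} (hz : z ∈ X) :
    SD (fun x : List S × ℕ => NR z x.1 x.2) := by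
  obtain ⟨W, a, h1, h2⟩ := exists_right h.sub h.fin hz
  have hc := h.zw_computable hz
  refine SD.of_eq ?_ fun x => (NR_iff h.sub hz h1 h2 x.1 x.2).symm
  refine SD.ex (p := fun (x : List S × ℕ) L => ∃ Q, AvCert X W L x.1 ∧
    a + L + x.1.length ≤ Q ∧ x.2 ≤ Q ∧ ¬ x.1 <:+: (zw z Q).drop (Q + x.2)) ?_
  refine SD.ex (p := fun (x : (List S × ℕ) × ℕ) Q => AvCert X W x.2 x.1.1 ∧
    a + x.2 + x.1.1.length ≤ Q ∧ x.1.2 ≤ Q ∧ ¬ x.1.1 <:+: (zw z Q).drop (Q + x.1.2)) ?_
  refine SD.and ?_ (SD.and (SD.le (by fun_prop) (by fun_prop))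
    (SD.and (SD.le (by fun_prop) (by fun_prop)) (CD.occ (by fun_prop) (by fun_prop)).2))
  exact (AvCert_CD h.dec W).1.comp (g := fun x : ((List S × ℕ) × ℕ) × ℕ => (x.1.2, x.1.1.1))
    (by fun_prop)

theorem Std.SD_NL {X : Set (ℤ → S)} (h : Std X) {z : ℤ → S} (hz : z ∈ X) :
    SD (fun x : List S × ℕ => NL z x.1 x.2) := by
  obtain ⟨W, a, h1, h2⟩ := exists_left h.sub h.fin hz
  have hc := h.zw_computable hz
  refine SD.of_eq ?_ fun x => (NL_iff h.sub hz h1 h2 x.1 x.2).symm
  refine SD.ex (p := fun (x : List S × ℕ) L => ∃ Q, AvCert X W L x.1 ∧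
    a + L + x.1.length ≤ Q ∧ x.2 ≤ Q ∧ ¬ x.1 <:+: (zw z Q).take (Q - x.2 + 1)) ?_
  refine SD.ex (p := fun (x : (List S × ℕ) × ℕ) Q => AvCert X W x.2 x.1.1 ∧
    a + x.2 + x.1.1.length ≤ Q ∧ x.1.2 ≤ Q ∧ ¬ x.1.1 <:+: (zw z Q).take (Q - x.1.2 + 1)) ?_
  refine SD.and ?_ (SD.and (SD.le (by fun_prop) (by fun_prop))
    (SD.and (SD.le (by fun_prop) (by fun_prop)) (CD.occ (by fun_prop) (by fun_prop)).2))
  exact (AvCert_CD h.dec W).1.comp (g := fun x : ((List S × ℕ) × ℕ) × ℕ => (x.1.2, x.1.1.1))
    (by fun_prop)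

/-- The language of every subsystem is decidable. -/
theorem Std.Lang_CD {X : Set (ℤ → S)} (h : Std X) {Y : Set (ℤ → S)} (hY : IsSubshift Y)
    (hYX : Y ⊆ X) : CD (fun u : List S => u ∈ Lang Y) := by
  classical
  constructor
  · obtain ⟨Z, hZX, hZ⟩ := exists_reps h.sub h.cnt h.fin
    refine SD.of_eq (p := fun u : List S => ∃ z ∈ Z.filter (fun z => z ∈ Y),
      ∃ ρ, u <:+: zw z ρ) ?_ fun u => ?_
    · refine SD.ex_finset _ fun z hz => ?_
      rw [Finset.mem_filter] at hz
      have hc := h.zw_computable (hZX z hz.1)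
      exact SD.ex (p := fun (u : List S) ρ => u <:+: zw z ρ)
        (CD.occ (by fun_prop) (by fun_prop)).1
    · constructor
      · rintro ⟨z, hz, ρ, h1⟩
        rw [Finset.mem_filter] at hz
        exact Lang_infix h1 (mem_Lang_word hz.2 _ _)
      · rintro ⟨y, hy, t, ht⟩
        obtain ⟨z, hz, c, rfl⟩ := hZ y (hYX hy)
        have hzY : z ∈ Y := by
          have := hY.sh_mem (-c) hy
          rw [sh_sh] at this
          simpa using this
        refine ⟨z, by rw [Finset.mem_filter]; exact ⟨hz, hzY⟩, (t + c).natAbs + u.length, ?_⟩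
        rw [word_sh] at ht
        nth_rewrite 1 [← ht]
        exact word_infix_word (by omega) (by omega)
  · obtain ⟨W, hW, hWX⟩ := exists_avoid h.sub h.fin hY
    refine SD.of_eq (p := fun u : List S => ∃ L, AvCert X W L u) ?_ fun u => ?_
    · refine SD.ex (p := fun (u : List S) L => AvCert X W L u) ?_
      exact (AvCert_CD h.dec W).1.comp (g := fun x : List S × ℕ => (x.2, x.1)) (by fun_prop)
    · rw [← avoid_iff h.sub]
      constructor
      · rintro h1 ⟨y, hy, t, ht⟩
        refine h1 y (hYX hy) (fun w hw s hs => hW w hw ⟨y, hy, s, hs⟩) t ht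
      · intro h1 x hx hav t ht
        exact h1 ⟨x, hWX x hx hav, t, ht⟩

end Computability

end Pool.Agent.MP752584
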