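import Pool.Agent.Lib.MP_752584_lc.PhiSD
import Pool.Agent.Lib.MP_752584_lc.Aut

/-!
The decision procedure.
-/

namespace Pool.Agent.MP752584

variable {S : Type*} [TopologicalSpace S] [DiscreteTopology S] [Fintype S] [Primcodable S]

omit [TopologicalSpace S] [DiscreteTopology S] [Fintype S] in
theorem CD_accepted {α : Type*} [Primcodable α] {f : α → Automaton S} {g : α → List S}
    (hf : Computable f) (hg : Computable g) : CD (fun a => g a ∈ accepted (f a)) := by
  refine CD.of_eq (p := fun a => ∃ q ∈ (f a).2.2, q ∈ reach (f a) (g a)) ?_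
    fun a => mem_accepted.symm
  exact CD.ex_mem (p := fun a q => q ∈ reach (f a) (g a)) (l := fun a => (f a).2.2)
    (CD.mem (by fun_prop) (by fun_prop)) (by fun_prop)

omit [TopologicalSpace S] [DiscreteTopology S] in
theorem CD_Eqv {α : Type*} [Primcodable α] {f : α → Automaton S} {k : α → ℕ} {u v : α → List S}
    (hf : Computable f) (hk : Computable k) (hu : Computable u) (hv : Computable v) :
    CD (fun a => Eqv (f a) (k a) (u a) (v a)) := by
  refine CD.and (CD.or (CD.eq (by fun_prop) (by fun_prop))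
    (CD_SameType (by fun_prop) (by fun_prop) (by fun_prop))) (CD.and ?_ ?_)
  · exact CD.all_mem (p := fun a q => q ∈ reach (f a) (v a)) (l := fun a => reach (f a) (u a))
      (CD.mem (by fun_prop) (by fun_prop)) (by fun_prop)
  · exact CD.all_mem (p := fun a q => q ∈ reach (f a) (u a)) (l := fun a => reach (f a) (v a))
      (CD.mem (by fun_prop) (by fun_prop)) (by fun_prop)

/-- The certificate for emptiness of the intersection. -/
def EmptyCert (X : Set (ℤ → S)) (k₀ : ℕ) (Φ : ℕ × List S → Prop) (A : Automaton S) : Prop :=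
  ∃ c : ℕ × List (List S), k₀ ≤ c.1 ∧ [] ∈ c.2 ∧
    (∀ r ∈ c.2, ∀ a ∈ (Finset.univ : Finset S), ∃ r' ∈ c.2, Eqv A c.1 (r ++ [a]) r') ∧
    ∀ r ∈ c.2, (r ∈ accepted A → (r.length ≤ c.1 → r ∉ Lang X) ∧
      (c.1 + 1 ≤ r.length → Φ (c.1, r)))

theorem SD_EmptyCert {X : Set (ℤ → S)} (h : Std X) (k₀ : ℕ) {Φ : ℕ × List S → Prop}
    (hΦ : SD Φ) : SD (EmptyCert X k₀ Φ) := by
  refine SD.ex (p := fun (A : Automaton S) (c : ℕ × List (List S)) => k₀ ≤ c.1 ∧ [] ∈ c.2 ∧
    (∀ r ∈ c.2, ∀ a ∈ (Finset.univ : Finset S), ∃ r' ∈ c.2, Eqv A c.1 (r ++ [a]) r') ∧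
    ∀ r ∈ c.2, (r ∈ accepted A → (r.length ≤ c.1 → r ∉ Lang X) ∧
      (c.1 + 1 ≤ r.length → Φ (c.1, r)))) ?_
  refine SD.and (SD.le (by fun_prop) (by fun_prop)) (SD.and (CD.mem (by fun_prop)
    (by fun_prop)).1 (SD.and ?_ ?_))
  · refine SD.all_mem (l := fun x : Automaton S × (ℕ × List (List S)) => x.2.2)
      (p := fun x r => ∀ a ∈ (Finset.univ : Finset S), ∃ r' ∈ x.2.2,
        Eqv x.1 x.2.1 (r ++ [a]) r') ?_ (by fun_prop)
    refine SD.all_finset _ fun a _ => ?_
    refine SD.ex_mem (l := fun x : (Automaton S × (ℕ × List (List S))) × List S => x.1.2.2)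
      (p := fun x r' => Eqv x.1.1 x.1.2.1 (x.2 ++ [a]) r') ?_ (by fun_prop)
    exact (CD_Eqv (by fun_prop) (by fun_prop) (by fun_prop) (by fun_prop)).1
  · refine SD.all_mem (l := fun x : Automaton S × (ℕ × List (List S)) => x.2.2)
      (p := fun x r => (r ∈ accepted x.1 → (r.length ≤ x.2.1 → r ∉ Lang X) ∧
        (x.2.1 + 1 ≤ r.length → Φ (x.2.1, r)))) ?_ (by fun_prop)
    refine SD.imp (CD_accepted (by fun_prop) (by fun_prop)) (SD.and ?_ ?_)
    · exact SD.imp (CD.le (by fun_prop) (by fun_prop)) (h.dec.not.1.comp (by fun_prop))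
    · refine SD.imp (CD.le (by fun_prop) (by fun_prop)) ?_
      exact hΦ.comp (g := fun x : (Automaton S × (ℕ × List (List S))) × List S => (x.1.2.1, x.2))
        (by fun_prop)

/-- The main theorem: for every countable quasiminimal recursive subshift, model checking of
locally testable languages is decidable. -/
theorem main {X : Set (ℤ → S)} (hX : IsSubshift X) (hc : X.Countable) (hq : Quasiminimal X)
    (hr : ComputablePred fun w : List S => w ∈ Lang X) :
    ModelCheckingDecidable X {L | LocallyTestable L} := by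
  have h : Std X := by
    refine ⟨hX, hc, ?_, CD.of_computablePred hr⟩
    refine (hq.union (Set.finite_singleton X)).subset ?_
    rintro Y ⟨h1, h2⟩
    rcases h2.eq_or_ssubset with h3 | h3
    · exact Or.inr h3
    · exact Or.inl ⟨h1, h3⟩
  obtain ⟨k₀, Φ, hΦ, hΦ'⟩ := h.unrealised
  -- the two semi-decision procedures
  have hP : SD (fun A : Automaton S => ∃ w : List S, w ∈ accepted A ∧ w ∈ Lang X) :=
    SD.ex (p := fun (A : Automaton S) (w : List S) => w ∈ accepted A ∧ w ∈ Lang X)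
      (SD.and (CD_accepted (by fun_prop) (by fun_prop)).1 (h.dec.1.comp (by fun_prop)))
  have hN := SD_EmptyCert h k₀ hΦ
  have hsound : ∀ A : Automaton S, EmptyCert X k₀ Φ A →
      ¬ ∃ w : List S, w ∈ accepted A ∧ w ∈ Lang X := by
    rintro A ⟨⟨κ, R⟩, h1, h2, h3, h4⟩ ⟨w, hw, hwX⟩
    dsimp only at h1 h2 h3 h4
    obtain ⟨r, hr, hE⟩ := rep_of_closed h2 (fun r hr a => h3 r hr a (Finset.mem_univ a)) w
    obtain ⟨h5, h6⟩ := h4 r hr (hE.accepted hw)
    rcases hE.1 with rfl | h7
    · by_cases hl : w.length ≤ κ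
      · exact h5 hl hwX
      · exact (hΦ' κ h1 w (by omega)).1 (h6 (by omega)) w hwX (SameType.refl (by omega))
    · exact (hΦ' κ h1 r h7.2.1).1 (h6 h7.2.1) w hwX h7.symm
  have hcomplete : ∀ A : Automaton S, LocallyTestable (accepted A) →
      (¬ ∃ w : List S, w ∈ accepted A ∧ w ∈ Lang X) → EmptyCert X k₀ Φ A := by
    rintro A ⟨k, hk, hLT⟩ hno
    obtain ⟨R, hR0, hR⟩ := exists_rep A (max (k - 1) k₀)
    refine ⟨(max (k - 1) k₀, R), le_max_right _ _, hR0, fun r _ a _ => hR _, ?_⟩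
    dsimp only
    intro r hr hrA
    refine ⟨fun _ hrX => hno ⟨r, hrA, hrX⟩, fun hl => ?_⟩
    rw [hΦ' _ (le_max_right _ _) r hl]
    intro w hwX hst
    have h1 := hst.down (le_max_left _ _)
    have e : k - 1 + 1 = k := by omega
    refine hno ⟨w, (hLT r w ?_ ?_ h1.2.2.1 h1.2.2.2.1 ?_).1 hrA, hwX⟩
    · have := h1.1
      omega
    · have := h1.2.1
      omega
    · intro x hx
      exact h1.2.2.2.2 x (by omega)
  obtain ⟨f, hf, hfP⟩ := hP
  obtain ⟨g, hg, hgN⟩ := hN
  refine ⟨fun A => (Nat.rfind fun n => Part.some (f A n || g A n)).map fun n => f A n, ?_, ?_⟩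
  · refine Partrec.map (Partrec.rfind ?_) hf
    have hfg : Computable₂ fun (A : Automaton S) (n : ℕ) => f A n || g A n :=
      Primrec.or.to_comp.comp hf hg
    exact hfg.partrec₂
  · intro A hA
    have hex : ∃ n, (f A n || g A n) = true := by
      by_cases hw : ∃ w : List S, w ∈ accepted A ∧ w ∈ Lang X
      · obtain ⟨n, hn⟩ := (hfP A).1 hw
        exact ⟨n, by simp [hn]⟩
      · obtain ⟨n, hn⟩ := (hgN A).1 (hcomplete A hA hw)
        exact ⟨n, by simp [hn]⟩
    have hdom : (Nat.rfind fun n => Part.some (f A n || g A n)).Dom := by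
      obtain ⟨n, hn⟩ := hex
      exact Nat.rfind_dom.2 ⟨n, Part.mem_some_iff.2 hn.symm, fun _ => trivial⟩
    obtain ⟨n, hn⟩ := Part.dom_iff_mem.1 hdom
    refine ⟨f A n, Part.mem_map _ hn, ?_⟩
    have hspec : (f A n || g A n) = true := (Part.mem_some_iff.1 (Nat.rfind_spec hn)).symm
    have e : (accepted A ∩ Lang X).Nonempty ↔ ∃ w : List S, w ∈ accepted A ∧ w ∈ Lang X :=
      Iff.rfl
    rw [e]
    constructor
    · intro hfn
      exact (hfP A).2 ⟨n, hfn⟩
    · intro hw
      cases hfn : f A n with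
      | true => rfl
      | false =>
        rw [hfn, Bool.false_or] at hspec
        exact absurd hw (hsound A ((hgN A).2 ⟨n, hspec⟩))

end Pool.Agent.MP752584
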