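import Pool.Agent.Lib.MP_752584_lc.Sound

/-!
The certificate is semi-decidable.
-/

namespace Pool.Agent.MP752584

variable {S : Type*} [TopologicalSpace S] [DiscreteTopology S] [Fintype S] [Primcodable S]
  {α : Type*} [Primcodable α]

omit [TopologicalSpace S] [DiscreteTopology S] in
theorem CD_SameType {k : α → ℕ} {u v : α → List S} (hk : Computable k) (hu : Computable u)
    (hv : Computable v) : CD (fun a => SameType (k a) (u a) (v a)) := by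
  refine CD.and (CD.le (by fun_prop) (by fun_prop)) (CD.and (CD.le (by fun_prop) (by fun_prop))
    (CD.and (CD.eq (by fun_prop) (by fun_prop)) (CD.and (CD.eq (by fun_prop) (by fun_prop)) ?_)))
  exact CD.all_words (p := fun a w => (w <:+: u a ↔ w <:+: v a)) (b := fun a => k a + 1)
    (CD.iff (CD.occ (by fun_prop) (by fun_prop)) (CD.occ (by fun_prop) (by fun_prop)))
    (by fun_prop)

theorem Std.CD_C1 {X : Set (ℤ → S)} (h : Std X) {Ys : Finset (Set (ℤ → S))}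
    (hYs : ∀ Y ∈ Ys, IsSubshift Y ∧ Y ⊆ X) :
    CD (fun x : ℕ × ℕ => C1 X Ys x.1 x.2) := by
  refine CD.all_words (b := fun x : ℕ × ℕ => 2 * x.2 + x.1 + 1)
    (p := fun x V => V ∈ Lang X →
    ∃ Y ∈ Ys, (∀ u : List S, u.length = x.1 + 1 → u ∈ Lang Y → u <:+: V) ∧
      (V.drop x.2).take (x.1 + 1) ∈ Lang Y) ?_ (by fun_prop)
  refine (h.dec.comp (by fun_prop)).imp ?_
  refine CD.ex_finset Ys fun Y hY => ?_
  have hL := h.Lang_CD (hYs Y hY).1 (hYs Y hY).2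
  refine CD.and ?_ (hL.comp (by fun_prop))
  refine CD.all_words (b := fun x : (ℕ × ℕ) × List S => x.1.1 + 1)
    (p := fun x u => u ∈ Lang Y → u <:+: x.2) ?_ (by fun_prop)
  exact (hL.comp (by fun_prop)).imp (CD.occ (by fun_prop) (by fun_prop))

theorem Std.SD_C2 {X : Set (ℤ → S)} (h : Std X) {z : ℤ → S} (hz : z ∈ X) :
    SD (fun x : ℕ × ℕ => C2 z x.1 x.2) := by
  have hL := h.Lang_CD (om_isSubshift z) ((om_subset_OC z).trans (OC_subset h.sub hz))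
  refine SD.all_words (b := fun x : ℕ × ℕ => x.1 + 1)
    (p := fun x u => u ∈ Lang (om z) ∨ NR z u x.2) ?_ (by fun_prop)
  exact (hL.1.comp (by fun_prop)).or
    ((h.SD_NR hz).comp (g := fun x : (ℕ × ℕ) × List S => (x.2, x.1.2)) (by fun_prop))

theorem Std.SD_C2' {X : Set (ℤ → S)} (h : Std X) {z : ℤ → S} (hz : z ∈ X) :
    SD (fun x : ℕ × ℕ => C2' z x.1 x.2) := by
  have hL := h.Lang_CD (al_isSubshift z) ((al_subset_OC z).trans (OC_subset h.sub hz))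
  refine SD.all_words (b := fun x : ℕ × ℕ => x.1 + 1)
    (p := fun x u => u ∈ Lang (al z) ∨ NL z u x.2) ?_ (by fun_prop)
  exact (hL.1.comp (by fun_prop)).or
    ((h.SD_NL hz).comp (g := fun x : (ℕ × ℕ) × List S => (x.2, x.1.2)) (by fun_prop))

theorem Std.SD_LEnd {X : Set (ℤ → S)} (H : Std X) {z : ℤ → S} (hz : z ∈ X)
    {κ h d A a ρ : α → ℕ} {V : α → List S} (hκ : Computable κ) (hh : Computable h)
    (hd : Computable d) (hA : Computable A) (ha : Computable a) (hρ : Computable ρ)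
    (hV : Computable V) :
    SD (fun x => LEnd (κ x) (h x) (d x) (A x) z (V x) (a x) (ρ x)) := by
  have hc := H.zw_computable hz
  refine SD.and (SD.le (by fun_prop) (by fun_prop)) (SD.and (SD.eq (by fun_prop) (by fun_prop))
    (SD.and (SD.le (by fun_prop) (by fun_prop)) (SD.and (SD.le (by fun_prop) (by fun_prop))
    (SD.and (SD.le (by fun_prop) (by fun_prop)) ?_))))
  refine SD.all_words (b := fun x => κ x + 1)
    (p := fun x u => u <:+: (zw z (ρ x)).drop (ρ x + (A x - (a x + ρ x))) ∨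
      NR z u (A x - (a x + ρ x))) ?_ (by fun_prop)
  exact (CD.occ (by fun_prop) (by fun_prop)).1.or
    ((H.SD_NR hz).comp (g := fun x : α × List S => (x.2, A x.1 - (a x.1 + ρ x.1)))
      (by fun_prop))

theorem Std.SD_REnd {X : Set (ℤ → S)} (H : Std X) {z : ℤ → S} (hz : z ∈ X)
    {κ h d A a ρ : α → ℕ} {V : α → List S} (hκ : Computable κ) (hh : Computable h)
    (hd : Computable d) (hA : Computable A) (ha : Computable a) (hρ : Computable ρ)
    (hV : Computable V) :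
    SD (fun x => REnd (κ x) (h x) (d x) (A x) z (V x) (a x) (ρ x)) := by
  have hc := H.zw_computable hz
  refine SD.and (SD.le (by fun_prop) (by fun_prop)) (SD.and (SD.eq (by fun_prop) (by fun_prop))
    (SD.and (SD.le (by fun_prop) (by fun_prop)) (SD.and (SD.le (by fun_prop) (by fun_prop))
    (SD.and (SD.le (by fun_prop) (by fun_prop)) ?_))))
  refine SD.all_words (b := fun x => κ x + 1)
    (p := fun x u => u <:+: (zw z (ρ x)).take (ρ x - ((a x + ρ x) - A x) + 1) ∨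
      NL z u ((a x + ρ x) - A x)) ?_ (by fun_prop)
  exact (CD.occ (by fun_prop) (by fun_prop)).1.or
    ((H.SD_NL hz).comp (g := fun x : α × List S => (x.2, (a x.1 + ρ x.1) - A x.1))
      (by fun_prop))

theorem Std.CD_NE {X : Set (ℤ → S)} (H : Std X) {z z' : ℤ → S} (hz : z ∈ X) (hz' : z' ∈ X)
    {Y : Set (ℤ → S)} (hY : IsSubshift Y) (hYX : Y ⊆ X)
    {κ A a ρ a' ρ' : α → ℕ} {r : α → List S} (hκ : Computable κ)
    (hA : Computable A) (ha : Computable a) (hρ : Computable ρ)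
    (ha' : Computable a') (hρ' : Computable ρ') (hr : Computable r) :
    CD (fun x => NE (κ x) (A x) (r x) z Y z' (a x) (ρ x) (a' x) (ρ' x)) := by
  have hc := H.zw_computable hz
  have hc' := H.zw_computable hz'
  have hL := H.Lang_CD hY hYX
  refine CD.ex_words (b := fun x => κ x + 1)
    (p := fun x u => ¬ (u <:+: r x ↔ (u <:+: (zw z (ρ x)).drop (A x - a x) ∨ u ∈ Lang Y ∨
      u <:+: (zw z' (ρ' x)).take (A x - a' x + 1)))) ?_ (by fun_prop)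
  exact ((CD.occ (by fun_prop) (by fun_prop)).iff ((CD.occ (by fun_prop) (by fun_prop)).or
    ((hL.comp (by fun_prop)).or (CD.occ (by fun_prop) (by fun_prop))))).not

theorem SD.const_imp {P : Prop} {q : α → Prop} (hq : SD q) : SD (fun a => P → q a) := by
  by_cases h : P
  · exact hq.of_eq fun a => by simp [h]
  · exact (SD.const True).of_eq fun a => by simp [h]

theorem Std.SD_Phi {X : Set (ℤ → S)} (h : Std X) {Z : Finset (ℤ → S)}
    {Ys : Finset (Set (ℤ → S))} (hZX : ∀ z ∈ Z, z ∈ X)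
    (hYs : ∀ Y ∈ Ys, IsSubshift Y ∧ Y ⊆ X) :
    SD (fun x : ℕ × List S => Phi X Z Ys x.1 x.2) := by
  refine SD.ex (p := fun (x : ℕ × List S) (hdA : ℕ × ℕ × ℕ) =>
    x.1 ≤ hdA.2.2 ∧ C1 X Ys x.1 hdA.1 ∧
    (∀ z ∈ Z, C2 z x.1 hdA.2.1 ∧ C2' z x.1 hdA.2.1) ∧
    (∀ V : List S, V.length < 6 * hdA.2.2 + 1 → V ∈ Lang X → ¬ SameType x.1 x.2 V) ∧
    ∀ V : List S, V.length = 2 * hdA.2.2 + 1 →
      (V ∈ Lang X → (V.drop hdA.2.2).take x.1 = x.2.take x.1 →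
      ∀ V' : List S, V'.length = 2 * hdA.2.2 + 1 →
        (V' ∈ Lang X → (V'.drop (hdA.2.2 + 1 - x.1)).take x.1 = x.2.drop (x.2.length - x.1) →
        ∃ z ∈ Z, ∃ z' ∈ Z, ∃ q : (ℕ × ℕ) × (ℕ × ℕ),
          LEnd x.1 hdA.1 hdA.2.1 hdA.2.2 z V q.1.1 q.1.2 ∧
          REnd x.1 hdA.1 hdA.2.1 hdA.2.2 z' V' q.2.1 q.2.2 ∧
          ∀ Y ∈ Ys, (∀ κ', CC X κ' z Y z') →
            NE x.1 hdA.2.2 x.2 z Y z' q.1.1 q.1.2 q.2.1 q.2.2))) ?_
  refine SD.and (SD.le (by fun_prop) (by fun_prop)) (SD.and ?_ (SD.and ?_ (SD.and ?_ ?_)))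
  · exact (h.CD_C1 hYs).1.comp (g := fun x : (ℕ × List S) × (ℕ × ℕ × ℕ) => (x.1.1, x.2.1))
      (by fun_prop)
  · refine SD.all_finset Z fun z hz => SD.and ?_ ?_
    · exact (h.SD_C2 (hZX z hz)).comp
        (g := fun x : (ℕ × List S) × (ℕ × ℕ × ℕ) => (x.1.1, x.2.2.1)) (by fun_prop)
    · exact (h.SD_C2' (hZX z hz)).comp
        (g := fun x : (ℕ × List S) × (ℕ × ℕ × ℕ) => (x.1.1, x.2.2.1)) (by fun_prop)
  · refine SD.all_lt_words (b := fun x : (ℕ × List S) × (ℕ × ℕ × ℕ) => 6 * x.2.2.2 + 1)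
      (p := fun x V => V ∈ Lang X → ¬ SameType x.1.1 x.1.2 V) ?_ (by fun_prop)
    exact SD.imp (h.dec.comp (by fun_prop))
      (CD_SameType (by fun_prop) (by fun_prop) (by fun_prop)).not.1
  · refine SD.all_words (b := fun x : (ℕ × List S) × (ℕ × ℕ × ℕ) => 2 * x.2.2.2 + 1)
      (p := fun x V => (V ∈ Lang X → (V.drop x.2.2.2).take x.1.1 = x.1.2.take x.1.1 →
      ∀ V' : List S, V'.length = 2 * x.2.2.2 + 1 →
        (V' ∈ Lang X → (V'.drop (x.2.2.2 + 1 - x.1.1)).take x.1.1 =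
          x.1.2.drop (x.1.2.length - x.1.1) →
        ∃ z ∈ Z, ∃ z' ∈ Z, ∃ q : (ℕ × ℕ) × (ℕ × ℕ),
          LEnd x.1.1 x.2.1 x.2.2.1 x.2.2.2 z V q.1.1 q.1.2 ∧
          REnd x.1.1 x.2.1 x.2.2.1 x.2.2.2 z' V' q.2.1 q.2.2 ∧
          ∀ Y ∈ Ys, (∀ κ', CC X κ' z Y z') →
            NE x.1.1 x.2.2.2 x.1.2 z Y z' q.1.1 q.1.2 q.2.1 q.2.2))) ?_ (by fun_prop)
    refine SD.imp (h.dec.comp (by fun_prop)) (SD.imp (CD.eq (by fun_prop) (by fun_prop)) ?_)
    refine SD.all_words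
      (b := fun x : ((ℕ × List S) × (ℕ × ℕ × ℕ)) × List S => 2 * x.1.2.2.2 + 1)
      (p := fun x V' => (V' ∈ Lang X →
          (V'.drop (x.1.2.2.2 + 1 - x.1.1.1)).take x.1.1.1 =
          x.1.1.2.drop (x.1.1.2.length - x.1.1.1) →
        ∃ z ∈ Z, ∃ z' ∈ Z, ∃ q : (ℕ × ℕ) × (ℕ × ℕ),
          LEnd x.1.1.1 x.1.2.1 x.1.2.2.1 x.1.2.2.2 z x.2 q.1.1 q.1.2 ∧
          REnd x.1.1.1 x.1.2.1 x.1.2.2.1 x.1.2.2.2 z' V' q.2.1 q.2.2 ∧
          ∀ Y ∈ Ys, (∀ κ', CC X κ' z Y z') →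
            NE x.1.1.1 x.1.2.2.2 x.1.1.2 z Y z' q.1.1 q.1.2 q.2.1 q.2.2)) ?_ (by fun_prop)
    refine SD.imp (h.dec.comp (by fun_prop)) (SD.imp (CD.eq (by fun_prop) (by fun_prop)) ?_)
    refine SD.ex_finset Z fun z hz => SD.ex_finset Z fun z' hz' => ?_
    refine SD.ex (p := fun (x : (((ℕ × List S) × (ℕ × ℕ × ℕ)) × List S) × List S)
        (q : (ℕ × ℕ) × (ℕ × ℕ)) =>
        LEnd x.1.1.1.1 x.1.1.2.1 x.1.1.2.2.1 x.1.1.2.2.2 z x.1.2 q.1.1 q.1.2 ∧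
        REnd x.1.1.1.1 x.1.1.2.1 x.1.1.2.2.1 x.1.1.2.2.2 z' x.2 q.2.1 q.2.2 ∧
        ∀ Y ∈ Ys, (∀ κ', CC X κ' z Y z') →
          NE x.1.1.1.1 x.1.1.2.2.2 x.1.1.1.2 z Y z' q.1.1 q.1.2 q.2.1 q.2.2) ?_
    refine SD.and ?_ (SD.and ?_ ?_)
    · exact h.SD_LEnd (hZX z hz) (by fun_prop) (by fun_prop) (by fun_prop) (by fun_prop)
        (by fun_prop) (by fun_prop) (by fun_prop)
    · exact h.SD_REnd (hZX z' hz') (by fun_prop) (by fun_prop) (by fun_prop) (by fun_prop)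
        (by fun_prop) (by fun_prop) (by fun_prop)
    · refine SD.all_finset Ys fun Y hY => SD.const_imp ?_
      exact (h.CD_NE (hZX z hz) (hZX z' hz') (hYs Y hY).1 (hYs Y hY).2 (by fun_prop)
        (by fun_prop) (by fun_prop) (by fun_prop) (by fun_prop) (by fun_prop) (by fun_prop)).1

/-- For large `κ`, it is semi-decidable that a type is not realised. -/
theorem Std.unrealised {X : Set (ℤ → S)} (h : Std X) :
    ∃ (k₀ : ℕ) (Φ : ℕ × List S → Prop), SD Φ ∧ ∀ κ ≥ k₀, ∀ r : List S, κ + 1 ≤ r.length →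
      (Φ (κ, r) ↔ ∀ w ∈ Lang X, ¬ SameType κ r w) := by
  obtain ⟨Z, hZX, hZ⟩ := exists_reps h.sub h.cnt h.fin
  have hYs : ∀ Y, Y ∈ h.fin.toFinset ↔ IsSubshift Y ∧ Y ⊆ X := by simp
  obtain ⟨k₀, hk₀⟩ := exists_k0 X Z h.fin.toFinset
  refine ⟨k₀, fun x => Phi X Z h.fin.toFinset x.1 x.2,
    h.SD_Phi hZX fun Y hY => (hYs Y).1 hY, fun κ hκ r hr => ⟨fun H => ?_, fun H => ?_⟩⟩
  · exact Phi.sound h.sub hZX hYs (hk₀ κ hκ) H
  · exact Phi.complete h.sub hZX hZ hYs hr H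

end Pool.Agent.MP752584
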