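import Mathlib

/-!
A small calculus of semi-decidable (recursively enumerable) predicates.
-/

namespace Pool.Agent.MP752584

variable {α β γ δ : Type*} [Primcodable α] [Primcodable β] [Primcodable γ] [Primcodable δ]

/-- `SD p`: the predicate `p` is semi-decidable, witnessed by a computable approximation. -/
def SD (p : α → Prop) : Prop :=
  ∃ f : α → ℕ → Bool, Computable₂ f ∧ ∀ a, p a ↔ ∃ n, f a n = true

theorem SD.of_eq {p q : α → Prop} (hp : SD p) (H : ∀ a, p a ↔ q a) : SD q := by
  obtain ⟨f, hf, h⟩ := hp
  exact ⟨f, hf, fun a => (H a).symm.trans (h a)⟩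

theorem SD.of_bool {f : α → Bool} (hf : Computable f) : SD (fun a => f a = true) :=
  ⟨fun a _ => f a, hf.comp Computable.fst, fun _ => ⟨fun h => ⟨0, h⟩, fun ⟨_, h⟩ => h⟩⟩

theorem SD.of_computablePred {p : α → Prop} (hp : ComputablePred p) : SD p := by
  obtain ⟨f, hf, rfl⟩ := ComputablePred.computable_iff.1 hp
  exact SD.of_bool hf

theorem SD.of_primrecPred {p : α → Prop} (hp : PrimrecPred p) : SD p :=
  SD.of_computablePred hp.computablePred

theorem SD.const (P : Prop) : SD (fun _ : α => P) := by
  by_cases h : P
  · exact (SD.of_bool (α := α) (Computable.const true)).of_eq (by simp [h])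
  · exact (SD.of_bool (α := α) (Computable.const false)).of_eq (by simp [h])

theorem SD.comp {p : β → Prop} (hp : SD p) {g : α → β} (hg : Computable g) :
    SD (fun a => p (g a)) := by
  obtain ⟨f, hf, h⟩ := hp
  exact ⟨fun a n => f (g a) n, hf.comp (hg.comp Computable.fst) Computable.snd, fun a => h (g a)⟩

theorem SD.and {p q : α → Prop} (hp : SD p) (hq : SD q) : SD (fun a => p a ∧ q a) := by
  obtain ⟨f, hf, h⟩ := hp
  obtain ⟨g, hg, h'⟩ := hq
  refine ⟨fun a n => f a n.unpair.1 && g a n.unpair.2, ?_, fun a => ?_⟩
  · refine Primrec.and.to_comp.comp (hf.comp Computable.fst ?_) (hg.comp Computable.fst ?_)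
    · exact Computable.fst.comp (Computable.unpair.comp Computable.snd)
    · exact Computable.snd.comp (Computable.unpair.comp Computable.snd)
  · show p a ∧ q a ↔ ∃ n, (f a (Nat.unpair n).1 && g a (Nat.unpair n).2) = true
    rw [h, h']
    constructor
    · rintro ⟨⟨n, hn⟩, m, hm⟩
      exact ⟨Nat.pair n m, by simp [hn, hm]⟩
    · rintro ⟨n, hn⟩
      rw [Bool.and_eq_true] at hn
      exact ⟨⟨_, hn.1⟩, _, hn.2⟩

theorem SD.or {p q : α → Prop} (hp : SD p) (hq : SD q) : SD (fun a => p a ∨ q a) := by
  obtain ⟨f, hf, h⟩ := hp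
  obtain ⟨g, hg, h'⟩ := hq
  refine ⟨fun a n => f a n || g a n, Primrec.or.to_comp.comp hf hg, fun a => ?_⟩
  show p a ∨ q a ↔ ∃ n, (f a n || g a n) = true
  rw [h, h']
  constructor
  · rintro (⟨n, hn⟩ | ⟨n, hn⟩)
    · exact ⟨n, by simp [hn]⟩
    · exact ⟨n, by simp [hn]⟩
  · rintro ⟨n, hn⟩
    rw [Bool.or_eq_true] at hn
    rcases hn with hn | hn
    · exact Or.inl ⟨n, hn⟩
    · exact Or.inr ⟨n, hn⟩

theorem SD.ex {p : α → β → Prop} (hp : SD (fun x : α × β => p x.1 x.2)) :
    SD (fun a => ∃ b, p a b) := by
  obtain ⟨f, hf, h⟩ := hp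
  refine ⟨fun a n => ((Encodable.decode (α := β) n.unpair.1).map
      (fun b => f (a, b) n.unpair.2)).getD false, ?_, fun a => ?_⟩
  · refine Computable.option_getD ?_ (Computable.const false)
    refine Computable.option_map ?_ ?_
    · exact Computable.decode.comp (Computable.fst.comp (Computable.unpair.comp Computable.snd))
    · refine hf.comp ?_ ?_
      · exact Computable.pair (Computable.fst.comp Computable.fst) Computable.snd
      · exact Computable.snd.comp
          (Computable.unpair.comp (Computable.snd.comp Computable.fst))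
  · constructor
    · rintro ⟨b, hb⟩
      obtain ⟨n, hn⟩ := (h (a, b)).1 hb
      exact ⟨Nat.pair (Encodable.encode b) n, by simp [hn]⟩
    · rintro ⟨n, hn⟩
      cases hd : (Encodable.decode (α := β) n.unpair.1) with
      | none => simp [hd] at hn
      | some b =>
        simp [hd] at hn
        exact ⟨b, (h (a, b)).2 ⟨_, hn⟩⟩

/-- Bounded universal quantification. -/
theorem SD.all_lt {p : α → ℕ → Prop} (hp : SD (fun x : α × ℕ => p x.1 x.2)) {b : α → ℕ}
    (hb : Computable b) : SD (fun a => ∀ i < b a, p a i) := by
  obtain ⟨f, hf, h⟩ := hp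
  -- `g (a, i) N` : some `m < N` has `f (a, i) m`
  let g : α × ℕ → ℕ → Bool := fun x N =>
    Nat.rec (motive := fun _ => Bool) false (fun m r => r || f x m) N
  have hg : Computable₂ g := by
    refine Computable.nat_rec (f := fun y : (α × ℕ) × ℕ => y.2) (g := fun _ => false)
      (h := fun (y : (α × ℕ) × ℕ) (z : ℕ × Bool) => z.2 || f y.1 z.1)
      Computable.snd (Computable.const false) ?_
    refine Primrec.or.to_comp.comp (Computable.snd.comp Computable.snd) ?_
    exact hf.comp (Computable.fst.comp Computable.fst) (Computable.fst.comp Computable.snd)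
  have hgs : ∀ x N, g x N = true ↔ ∃ m < N, f x m = true := by
    intro x N
    induction N with
    | zero => simp [g]
    | succ N ih =>
      have : g x (N + 1) = (g x N || f x N) := rfl
      rw [this, Bool.or_eq_true, ih]
      constructor
      · rintro (⟨m, hm, h⟩ | h)
        · exact ⟨m, by omega, h⟩
        · exact ⟨N, by omega, h⟩
      · rintro ⟨m, hm, h⟩
        rcases Nat.lt_succ_iff_lt_or_eq.1 hm with h' | rfl
        · exact Or.inl ⟨m, h', h⟩
        · exact Or.inr h
  let G : α → ℕ → Bool := fun a N =>
    Nat.rec (motive := fun _ => Bool) true (fun i r => r && g (a, i) N) (b a)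
  have hG : Computable₂ G := by
    refine Computable.nat_rec (f := fun y : α × ℕ => b y.1) (g := fun _ => true)
      (h := fun (y : α × ℕ) (z : ℕ × Bool) => z.2 && g (y.1, z.1) y.2)
      (hb.comp Computable.fst) (Computable.const true) ?_
    refine Primrec.and.to_comp.comp (Computable.snd.comp Computable.snd) ?_
    refine hg.comp ?_ (Computable.snd.comp Computable.fst)
    exact Computable.pair (Computable.fst.comp Computable.fst) (Computable.fst.comp Computable.snd)
  refine ⟨G, hG, fun a => ?_⟩
  have key : ∀ N B, (Nat.rec (motive := fun _ => Bool) true (fun i r => r && g (a, i) N) B) = true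
      ↔ ∀ i < B, g (a, i) N = true := by
    intro N B
    induction B with
    | zero => simp
    | succ B ih =>
      have : (Nat.rec (motive := fun _ => Bool) true (fun i r => r && g (a, i) N) (B + 1)) =
        ((Nat.rec (motive := fun _ => Bool) true (fun i r => r && g (a, i) N) B) && g (a, B) N) :=
        rfl
      rw [this, Bool.and_eq_true, ih]
      constructor
      · rintro ⟨h1, h2⟩ i hi
        rcases Nat.lt_succ_iff_lt_or_eq.1 hi with h' | rfl
        · exact h1 i h'
        · exact h2
      · intro h
        exact ⟨fun i hi => h i (by omega), h B (by omega)⟩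
  constructor
  · intro hall
    have : ∀ i, ∃ n, i < b a → f (a, i) n = true := by
      intro i
      by_cases hi : i < b a
      · obtain ⟨n, hn⟩ := (h (a, i)).1 (hall i hi)
        exact ⟨n, fun _ => hn⟩
      · exact ⟨0, fun h => absurd h hi⟩
    choose m hm using this
    refine ⟨(Finset.range (b a)).sup m + 1, ?_⟩
    refine (key ((Finset.range (b a)).sup m + 1) (b a)).2 fun i hi =>
      (hgs (a, i) ((Finset.range (b a)).sup m + 1)).2 ⟨m i, ?_, hm i hi⟩
    exact Nat.lt_succ_of_le (Finset.le_sup (f := m) (Finset.mem_range.2 hi))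
  · rintro ⟨N, hN⟩ i hi
    obtain ⟨m, _, hm⟩ := (hgs _ _).1 ((key N (b a)).1 hN i hi)
    exact (h (a, i)).2 ⟨m, hm⟩

/-- Universal quantification over the members of a computable list. -/
theorem SD.all_mem {p : α → β → Prop} (hp : SD (fun x : α × β => p x.1 x.2)) {l : α → List β}
    (hl : Computable l) : SD (fun a => ∀ b ∈ l a, p a b) := by
  have h1 : SD (fun a => ∀ i < (l a).length, ∃ b, (l a)[i]? = some b ∧ p a b) := by
    refine SD.all_lt (p := fun a i => ∃ b, (l a)[i]? = some b ∧ p a b) ?_
      (Computable.list_length.comp hl)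
    refine SD.ex (p := fun (x : α × ℕ) b => (l x.1)[x.2]? = some b ∧ p x.1 b) ?_
    refine SD.and ?_ ?_
    · have : PrimrecPred (fun x : Option β × Option β => x.1 = x.2) := Primrec.eq
      refine (SD.of_primrecPred this).comp
        (g := fun x : (α × ℕ) × β => ((l x.1.1)[x.1.2]?, some x.2)) ?_
      refine Computable.pair ?_ (Computable.option_some.comp Computable.snd)
      exact Computable.list_getElem?.comp (hl.comp (Computable.fst.comp Computable.fst))
        (Computable.snd.comp Computable.fst)
    · exact hp.comp (g := fun x : (α × ℕ) × β => (x.1.1, x.2))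
        (Computable.pair (Computable.fst.comp Computable.fst) Computable.snd)
  refine h1.of_eq fun a => ?_
  constructor
  · intro h b hb
    obtain ⟨i, hi, rfl⟩ := List.mem_iff_getElem.1 hb
    obtain ⟨b', hb', hp⟩ := h i hi
    rw [List.getElem?_eq_getElem hi] at hb'
    cases hb'
    exact hp
  · intro h i hi
    exact ⟨(l a)[i], List.getElem?_eq_getElem hi, h _ (List.getElem_mem hi)⟩

/-- Existential quantification over a fixed finite list of indices (of any type). -/
theorem SD.ex_list {ι : Type*} (l : List ι) {p : ι → α → Prop} (hp : ∀ i ∈ l, SD (p i)) :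
    SD (fun a => ∃ i ∈ l, p i a) := by
  induction l with
  | nil => exact (SD.const False).of_eq (by simp)
  | cons i l ih =>
    refine ((hp i (by simp)).or (ih fun j hj => hp j (by simp [hj]))).of_eq fun a => ?_
    simp

theorem SD.all_list {ι : Type*} (l : List ι) {p : ι → α → Prop} (hp : ∀ i ∈ l, SD (p i)) :
    SD (fun a => ∀ i ∈ l, p i a) := by
  induction l with
  | nil => exact (SD.const True).of_eq (by simp)
  | cons i l ih =>
    refine ((hp i (by simp)).and (ih fun j hj => hp j (by simp [hj]))).of_eq fun a => ?_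
    simp

theorem SD.ex_finset {ι : Type*} (l : Finset ι) {p : ι → α → Prop} (hp : ∀ i ∈ l, SD (p i)) :
    SD (fun a => ∃ i ∈ l, p i a) :=
  (SD.ex_list l.toList fun i hi => hp i (by simpa using hi)).of_eq (by simp)

theorem SD.all_finset {ι : Type*} (l : Finset ι) {p : ι → α → Prop} (hp : ∀ i ∈ l, SD (p i)) :
    SD (fun a => ∀ i ∈ l, p i a) :=
  (SD.all_list l.toList fun i hi => hp i (by simpa using hi)).of_eq (by simp)

theorem SD.eq {f g : α → β} (hf : Computable f) (hg : Computable g) : SD (fun a => f a = g a) :=
  (SD.of_primrecPred (α := β × β) (p := fun x => x.1 = x.2) Primrec.eq).comp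
    (Computable.pair hf hg)

theorem SD.ne {f g : α → β} (hf : Computable f) (hg : Computable g) : SD (fun a => f a ≠ g a) :=
  (SD.of_primrecPred (α := β × β) (p := fun x => ¬ x.1 = x.2) (PrimrecPred.not Primrec.eq)).comp
    (Computable.pair hf hg)

theorem SD.le {f g : α → ℕ} (hf : Computable f) (hg : Computable g) : SD (fun a => f a ≤ g a) :=
  (SD.of_primrecPred (α := ℕ × ℕ) (p := fun x => x.1 ≤ x.2) Primrec.nat_le).comp
    (Computable.pair hf hg)

theorem SD.lt {f g : α → ℕ} (hf : Computable f) (hg : Computable g) : SD (fun a => f a < g a) :=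
  (SD.of_primrecPred (α := ℕ × ℕ) (p := fun x => x.1 < x.2) Primrec.nat_lt).comp
    (Computable.pair hf hg)

/-- A total function with semi-decidable graph is computable. -/
theorem computable_of_graph {f : α → β} (hf : SD (fun x : α × β => f x.1 = x.2)) :
    Computable f := by
  obtain ⟨g, hg, h⟩ := hf
  let F : α → ℕ → Option β := fun a n =>
    (Encodable.decode (α := β) n.unpair.1).bind
      (fun b => bif g (a, b) n.unpair.2 then some b else none)
  have hF : Computable₂ F := by
    refine Computable.option_bind ?_ ?_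
    · exact Computable.decode.comp (Computable.fst.comp (Computable.unpair.comp Computable.snd))
    · refine Computable.cond ?_ (Computable.option_some.comp Computable.snd)
        (Computable.const none)
      refine hg.comp ?_ ?_
      · exact Computable.pair (Computable.fst.comp Computable.fst) Computable.snd
      · exact Computable.snd.comp
          (Computable.unpair.comp (Computable.snd.comp Computable.fst))
  have key : ∀ a n b, b ∈ F a n → f a = b := by
    intro a n b hb
    simp only [F, Option.mem_def, Option.bind_eq_some_iff] at hb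
    obtain ⟨b', _, hb'⟩ := hb
    cases hgv : g (a, b') n.unpair.2 with
    | false => simp [hgv] at hb'
    | true =>
      simp [hgv] at hb'
      subst hb'
      exact (h (a, b')).2 ⟨_, hgv⟩
  refine (Partrec.rfindOpt hF).of_eq_tot fun a => ?_
  have hdom : (Nat.rfindOpt (F a)).Dom := by
    rw [Nat.rfindOpt_dom]
    obtain ⟨n, hn⟩ := (h (a, f a)).1 rfl
    exact ⟨Nat.pair (Encodable.encode (f a)) n, f a, by simp [F, hn]⟩
  obtain ⟨b, hb⟩ := Part.dom_iff_mem.1 hdom
  obtain ⟨n, hn⟩ := Nat.rfindOpt_spec hb
  rw [key a n b hn]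
  exact hb

theorem SD.to_re {p : α → Prop} (hp : SD p) : REPred p := by
  obtain ⟨f, hf, h⟩ := hp
  have h1 : Partrec (fun a => Nat.rfind fun n => Part.some (f a n)) :=
    Partrec.rfind hf.partrec₂
  refine h1.dom_re.of_eq fun a => ?_
  rw [h]
  refine Nat.rfind_dom.trans ?_
  constructor
  · rintro ⟨n, hn, _⟩
    exact ⟨n, (Part.mem_some_iff.1 hn).symm⟩
  · rintro ⟨n, hn⟩
    exact ⟨n, Part.mem_some_iff.2 hn.symm, fun _ => trivial⟩

end Pool.Agent.MP752584
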