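import Pool.Agent.Lib.MP_752584_lc.Cert

/-!
Soundness and completeness of the certificate.
-/

namespace Pool.Agent.MP752584

variable {S : Type*} [TopologicalSpace S] [DiscreteTopology S] [Finite S]

theorem Phi.sound {X : Set (ℤ → S)} (hX : IsSubshift X) {Z : Finset (ℤ → S)}
    {Ys : Finset (Set (ℤ → S))} (hZX : ∀ z ∈ Z, z ∈ X)
    (hYs : ∀ Y, Y ∈ Ys ↔ IsSubshift Y ∧ Y ⊆ X) {κ : ℕ}
    (hκ : ∀ z ∈ Z, ∀ z' ∈ Z, ∀ Y ∈ Ys, CC X κ z Y z' → ∀ κ', CC X κ' z Y z')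
    {r : List S} (H : Phi X Z Ys κ r) : ∀ w ∈ Lang X, ¬ SameType κ r w := by
  obtain ⟨⟨h, d, A⟩, hA, h1, h2, h3, h4⟩ := H
  dsimp only at hA h1 h2 h3 h4
  intro w hw hst
  by_cases hlen : w.length < 6 * A + 1
  · exact h3 w hlen hw hst
  obtain ⟨hr1, hw1, hpre, hsuf, hfac⟩ := hst
  obtain ⟨x, hx, i, hi⟩ := hw
  obtain ⟨j, hj⟩ : ∃ j : ℤ, j = i + w.length - 1 := ⟨_, rfl⟩
  have e1 : ((word x (i - A) (2 * A + 1)).drop A).take κ = r.take κ := by
    rw [word_drop_take _ _ _ _ _ (by omega), hpre, ← hi, word_take, min_eq_left (by omega)]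
    congr 1
    ring
  have e2 : ((word x (j - A) (2 * A + 1)).drop (A + 1 - κ)).take κ =
      r.drop (r.length - κ) := by
    rw [word_drop_take _ _ _ _ _ (by omega), hsuf, ← hi, word_drop, word_length]
    congr 1
    · omega
    · omega
  obtain ⟨z, hz, z', hz', ⟨⟨a, ρ⟩, ⟨a', ρ'⟩⟩, hL, hR, hNE⟩ :=
    h4 (word x (i - A) (2 * A + 1)) (by simp) (mem_Lang_word hx _ _) e1
      (word x (j - A) (2 * A + 1)) (by simp) (mem_Lang_word hx _ _) e2
  dsimp only at hL hR hNE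
  obtain ⟨Y, hY, hYX, hCC, hdesc⟩ := necess hX (κ := κ) (h := h) (d := d) (A := A)
    (c := (A : ℤ) - a - ρ) (c' := (A : ℤ) - a' - ρ') (ρ := ρ) (ρ' := ρ')
    (h1.apply fun Y hY => ((hYs Y).1 hY).2)
    (hZX z hz) (hZX z' hz') (h2 z hz).1.apply (h2 z' hz').2.apply
    (by
      have := hL.1
      have := hL.2.2.2.1
      rcases abs_cases ((A : ℤ) - a - ρ) with h | h <;> omega)
    (by
      have := hR.1
      have := hR.2.2.1
      rcases abs_cases ((A : ℤ) - a' - ρ') with h | h <;> omega)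
    (by have := hL.2.2.1; omega)
    (by have := hL.2.2.2.1; omega)
    (by have := hL.2.2.2.2.1; omega)
    (by have := hR.2.2.1; omega)
    (by have := hR.2.2.2.1; omega)
    (by have := hR.2.2.2.2.1; omega)
    hL.hR hR.hR hx (i := i) (j := j) (by omega)
    (match_of_window hL.1 hL.2.1) (match_of_window hR.1 hR.2.1)
  obtain ⟨u, hu, hne⟩ := hNE Y ((hYs Y).2 ⟨hY, hYX⟩) (hκ z hz z' hz' Y ((hYs Y).2 ⟨hY, hYX⟩) hCC)
  apply hne
  rw [hL.occ_iff hu, hR.occ_iff hu, ← hdesc u hu, hfac u hu, ← hi, word_infix_iff, hu]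
  constructor
  · rintro ⟨k, hk, h5⟩
    exact ⟨i + k, by omega, by omega, h5⟩
  · rintro ⟨t, h5, h6, h7⟩
    refine ⟨(t - i).toNat, by omega, ?_⟩
    rw [← h7]
    congr 1
    omega

theorem exists_sup {ι : Type*} {s : Set ι} (hs : s.Finite) {P : ι → ℕ → Prop}
    (hmono : ∀ i n m, n ≤ m → P i n → P i m) (h : ∀ i ∈ s, ∃ n, P i n) :
    ∃ n, ∀ i ∈ s, P i n := by
  classical
  choose! f hf using h
  refine ⟨hs.toFinset.sup f, fun i hi => hmono i _ _ ?_ (hf i hi)⟩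
  exact Finset.le_sup (f := f) (by simpa using hi)

theorem exists_h {X : Set (ℤ → S)} (hX : IsSubshift X) {Ys : Finset (Set (ℤ → S))}
    (hYs : ∀ Y, Y ∈ Ys ↔ IsSubshift Y ∧ Y ⊆ X) (κ : ℕ) : ∃ h, C1 X Ys κ h := by
  obtain ⟨h, hh⟩ : ∃ h : ℕ, ∀ x ∈ X, ∃ Y ∈ Ys,
      (∀ u : List S, u.length = κ + 1 → u ∈ Lang Y →
        u <:+: word x (-(h : ℤ)) (2 * h + κ + 1)) ∧ word x 0 (κ + 1) ∈ Lang Y := by
    refine exists_uniform hX.1 ?_ ?_ ?_
    · rintro n m hnm x ⟨Y, hY, h1, h2⟩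
      refine ⟨Y, hY, fun u hu huY => (h1 u hu huY).trans ?_, h2⟩
      exact word_infix_word (by omega) (by push_cast; omega)
    · rintro n x ⟨Y, hY, h1, h2⟩
      refine ⟨n + κ, fun y hy => ⟨Y, hY, fun u hu huY => ?_, ?_⟩⟩
      · convert h1 u hu huY using 1
        rw [word_eq_iff]
        intro j hj
        exact hy _ (by rw [abs_le]; push_cast; omega)
      · convert h2 using 1
        rw [word_eq_iff]
        intro j hj
        exact hy _ (by rw [abs_le]; push_cast; omega)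
    · intro x hx
      obtain ⟨n, hn⟩ := exists_sup (List.finite_length_eq S (κ + 1))
        (P := fun u n => u ∈ Lang (OC x) → u <:+: word x (-(n : ℤ)) (2 * n + κ + 1)) (by
          intro u n m hnm h hu
          exact (h hu).trans (word_infix_word (by omega) (by push_cast; omega))) (by
          intro u hu
          by_cases huO : u ∈ Lang (OC x)
          · obtain ⟨t, ht⟩ := Lang_OC.1 huO
            refine ⟨t.natAbs + u.length, fun _ => ?_⟩
            nth_rewrite 1 [← ht]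
            exact word_infix_word (by omega) (by omega)
          · exact ⟨0, fun h => absurd h huO⟩)
      exact ⟨n, OC x, (hYs _).2 ⟨OC_isSubshift x, OC_subset hX hx⟩,
        fun u hu huO => hn u hu huO, mem_Lang_word (self_mem_OC x) _ _⟩
  refine ⟨h, fun V hV hVX => ?_⟩
  obtain ⟨x, hx, b, hb⟩ := hVX
  obtain ⟨Y, hY, h1, h2⟩ := hh (sh (b + h) x) (hX.sh_mem _ hx)
  have e1 : word (sh (b + h) x) (-(h : ℤ)) (2 * h + κ + 1) = V := by
    rw [word_sh, ← hb, hV]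
    congr 1
    ring
  refine ⟨Y, hY, fun u hu huY => by rw [← e1]; exact h1 u hu huY, ?_⟩
  rw [← e1, word_drop_take _ _ _ _ _ (by omega)]
  simpa using h2

omit [TopologicalSpace S] [DiscreteTopology S] [Finite S] in
theorem NR.mono {z : ℤ → S} {u : List S} {d d' : ℕ} (h : d ≤ d') (H : NR z u d) : NR z u d' :=
  fun t ht => H t (by omega)

omit [TopologicalSpace S] [DiscreteTopology S] [Finite S] in
theorem NL.mono {z : ℤ → S} {u : List S} {d d' : ℕ} (h : d ≤ d') (H : NL z u d) : NL z u d' :=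
  fun t ht => H t (by omega)

theorem exists_d {X : Set (ℤ → S)} (hX : IsSubshift X) {Z : Finset (ℤ → S)}
    (hZX : ∀ z ∈ Z, z ∈ X) (κ : ℕ) : ∃ d, ∀ z ∈ Z, C2 z κ d ∧ C2' z κ d := by
  refine exists_sup (s := (Z : Set (ℤ → S))) (Finset.finite_toSet Z) ?_ ?_
  · rintro z n m hnm ⟨h1, h2⟩
    refine ⟨fun u hu => ?_, fun u hu => ?_⟩
    · rcases h1 u hu with h | h
      · exact Or.inl h
      · exact Or.inr (h.mono hnm)
    · rcases h2 u hu with h | h
      · exact Or.inl h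
      · exact Or.inr (h.mono hnm)
  · intro z hz
    obtain ⟨n, hn⟩ := exists_sup (List.finite_length_eq S (κ + 1))
      (P := fun u n => u ∈ Lang (om z) ∨ NR z u n) (by
        intro u n m hnm h
        rcases h with h | h
        · exact Or.inl h
        · exact Or.inr (h.mono hnm)) (by
        intro u hu
        by_cases huO : u ∈ Lang (om z)
        · exact ⟨0, Or.inl huO⟩
        · rw [Lang_om hX (hZX z hz)] at huO
          push Not at huO
          obtain ⟨N, hN⟩ := huO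
          exact ⟨N.toNat, Or.inr fun t ht => hN t (by omega)⟩)
    obtain ⟨m, hm⟩ := exists_sup (List.finite_length_eq S (κ + 1))
      (P := fun u n => u ∈ Lang (al z) ∨ NL z u n) (by
        intro u n m hnm h
        rcases h with h | h
        · exact Or.inl h
        · exact Or.inr (h.mono hnm)) (by
        intro u hu
        by_cases huO : u ∈ Lang (al z)
        · exact ⟨0, Or.inl huO⟩
        · rw [Lang_al hX (hZX z hz)] at huO
          push Not at huO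
          obtain ⟨N, hN⟩ := huO
          exact ⟨(-N).toNat + 1, Or.inr fun t ht => hN t (by omega)⟩)
    refine ⟨max n m, fun u hu => ?_, fun u hu => ?_⟩
    · rcases hn u hu with h | h
      · exact Or.inl h
      · exact Or.inr (h.mono (le_max_left _ _))
    · rcases hm u hu with h | h
      · exact Or.inl h
      · exact Or.inr (h.mono (le_max_right _ _))

omit [TopologicalSpace S] [DiscreteTopology S] [Finite S] in
theorem LEnd.mono {κ h d A A' : ℕ} (hAA : A ≤ A') {z x : ℤ → S} {a ρ : ℕ}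
    (H : LEnd κ h d A z (word x (-(A : ℤ)) (2 * A + 1)) a ρ) :
    LEnd κ h d A' z (word x (-(A' : ℤ)) (2 * A' + 1)) (a + (A' - A)) ρ := by
  obtain ⟨h1, h2, h3, h4, h5, h6⟩ := H
  have e : A' - (a + (A' - A) + ρ) = A - (a + ρ) := by omega
  refine ⟨by omega, ?_, by omega, by omega, by omega, ?_⟩
  · rw [← h2, word_drop_take _ _ _ _ _ (by omega), word_drop_take _ _ _ _ _ (by omega)]
    congr 1
    omega
  · rw [e]
    exact h6

omit [TopologicalSpace S] [DiscreteTopology S] [Finite S] in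
theorem REnd.mono {κ h d A A' : ℕ} (hAA : A ≤ A') {z x : ℤ → S} {a ρ : ℕ}
    (H : REnd κ h d A z (word x (-(A : ℤ)) (2 * A + 1)) a ρ) :
    REnd κ h d A' z (word x (-(A' : ℤ)) (2 * A' + 1)) (a + (A' - A)) ρ := by
  obtain ⟨h1, h2, h3, h4, h5, h6⟩ := H
  have e : a + (A' - A) + ρ - A' = a + ρ - A := by omega
  refine ⟨by omega, ?_, by omega, by omega, by omega, ?_⟩
  · rw [← h2, word_drop_take _ _ _ _ _ (by omega), word_drop_take _ _ _ _ _ (by omega)]
    congr 1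
    omega
  · rw [e]
    exact h6

omit [TopologicalSpace S] [DiscreteTopology S] in
theorem exists_LEnd {Z : Finset (ℤ → S)} (κ h d : ℕ) {x : ℤ → S}
    (hx : ∃ z ∈ Z, ∃ c : ℤ, x = sh c z) :
    ∃ A : ℕ, ∃ z ∈ Z, ∃ a ρ : ℕ, LEnd κ h d A z (word x (-(A : ℤ)) (2 * A + 1)) a ρ := by
  obtain ⟨z, hz, c, rfl⟩ := hx
  obtain ⟨n, hn⟩ := exists_sup (List.finite_length_eq S (κ + 1))
    (P := fun u n => (∃ t : ℤ, max c 0 ≤ t ∧ t + κ ≤ n ∧ word z t (κ + 1) = u) ∨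
      NR z u (max c 0).toNat) (by
      intro u n m hnm h
      rcases h with ⟨t, h1, h2, h3⟩ | h
      · exact Or.inl ⟨t, h1, by omega, h3⟩
      · exact Or.inr h) (by
      intro u hu
      by_cases huO : NR z u (max c 0).toNat
      · exact ⟨0, Or.inr huO⟩
      · unfold NR at huO
        push Not at huO
        obtain ⟨t, ht, ht'⟩ := huO
        exact ⟨(t + κ).toNat, Or.inl ⟨t, by omega, by omega, by
          rw [← ht']
          congr 1
          exact hu.symm⟩⟩)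
  obtain ⟨ρ, hρ⟩ : ∃ ρ : ℕ, ρ = n + c.natAbs + h + d + κ + 1 := ⟨_, rfl⟩
  obtain ⟨a, ha⟩ : ∃ a : ℕ, a = (c.natAbs - c).toNat := ⟨_, rfl⟩
  have e : (c.natAbs + ρ) - (a + ρ) = (max c 0).toNat := by omega
  refine ⟨c.natAbs + ρ, z, hz, a, ρ, by omega, ?_, by omega, by omega, by omega, ?_⟩
  · rw [word_drop_take _ _ _ _ _ (by omega), word_sh, zw]
    congr 1
    omega
  · rw [e]
    intro u hu
    rcases hn u hu with ⟨t, h1, h2, h3⟩ | h1
    · left
      rw [zw, word_drop, word_infix_iff, hu]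
      refine ⟨(t - max c 0).toNat, by omega, ?_⟩
      rw [← h3]
      congr 1
      omega
    · exact Or.inr h1

omit [TopologicalSpace S] [DiscreteTopology S] in
theorem exists_REnd {Z : Finset (ℤ → S)} (κ h d : ℕ) {x : ℤ → S}
    (hx : ∃ z ∈ Z, ∃ c : ℤ, x = sh c z) :
    ∃ A : ℕ, ∃ z ∈ Z, ∃ a ρ : ℕ, REnd κ h d A z (word x (-(A : ℤ)) (2 * A + 1)) a ρ := by
  obtain ⟨z, hz, c, rfl⟩ := hx
  obtain ⟨n, hn⟩ := exists_sup (List.finite_length_eq S (κ + 1))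
    (P := fun u n => (∃ t : ℤ, -(n : ℤ) ≤ t ∧ t + κ ≤ min c 0 ∧ word z t (κ + 1) = u) ∨
      NL z u (-(min c 0)).toNat) (by
      intro u n m hnm h
      rcases h with ⟨t, h1, h2, h3⟩ | h
      · exact Or.inl ⟨t, by omega, h2, h3⟩
      · exact Or.inr h) (by
      intro u hu
      have hu' : u.length = κ + 1 := hu
      by_cases huO : NL z u (-(min c 0)).toNat
      · exact ⟨0, Or.inr huO⟩
      · unfold NL at huO
        push Not at huO
        obtain ⟨t, ht, ht'⟩ := huO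
        exact ⟨t.natAbs, Or.inl ⟨t, by omega, by omega, by
          rw [← ht']
          congr 1
          exact hu.symm⟩⟩)
  obtain ⟨ρ, hρ⟩ : ∃ ρ : ℕ, ρ = n + c.natAbs + h + d + κ + 1 := ⟨_, rfl⟩
  obtain ⟨a, ha⟩ : ∃ a : ℕ, a = (c.natAbs - c).toNat := ⟨_, rfl⟩
  have e : (a + ρ) - (c.natAbs + ρ) = (-(min c 0)).toNat := by omega
  refine ⟨c.natAbs + ρ, z, hz, a, ρ, by omega, ?_, by omega, by omega, by omega, ?_⟩
  · rw [word_drop_take _ _ _ _ _ (by omega), word_sh, zw]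
    congr 1
    omega
  · rw [e]
    intro u hu
    rcases hn u hu with ⟨t, h1, h2, h3⟩ | h1
    · left
      rw [zw, word_take, word_infix_iff, hu]
      refine ⟨(t + ρ).toNat, by omega, ?_⟩
      rw [← h3]
      congr 1
      omega
    · exact Or.inr h1

theorem exists_A {X : Set (ℤ → S)} (hX : IsSubshift X) {Z : Finset (ℤ → S)}
    (hZ : ∀ x ∈ X, ∃ z ∈ Z, ∃ c : ℤ, x = sh c z) (κ h d : ℕ) :
    ∃ A, κ ≤ A ∧ ∀ x ∈ X,
      (∃ z ∈ Z, ∃ a ρ : ℕ, LEnd κ h d A z (word x (-(A : ℤ)) (2 * A + 1)) a ρ) ∧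
      (∃ z ∈ Z, ∃ a ρ : ℕ, REnd κ h d A z (word x (-(A : ℤ)) (2 * A + 1)) a ρ) := by
  have hmono : ∀ n m : ℕ, n ≤ m → ∀ x : ℤ → S,
      ((∃ z ∈ Z, ∃ a ρ : ℕ, LEnd κ h d n z (word x (-(n : ℤ)) (2 * n + 1)) a ρ) ∧
        (∃ z ∈ Z, ∃ a ρ : ℕ, REnd κ h d n z (word x (-(n : ℤ)) (2 * n + 1)) a ρ)) →
      ((∃ z ∈ Z, ∃ a ρ : ℕ, LEnd κ h d m z (word x (-(m : ℤ)) (2 * m + 1)) a ρ) ∧
        (∃ z ∈ Z, ∃ a ρ : ℕ, REnd κ h d m z (word x (-(m : ℤ)) (2 * m + 1)) a ρ)) := by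
    rintro n m hnm x ⟨⟨z, hz, a, ρ, H⟩, ⟨z', hz', a', ρ', H'⟩⟩
    exact ⟨⟨z, hz, _, ρ, H.mono hnm⟩, ⟨z', hz', _, ρ', H'.mono hnm⟩⟩
  obtain ⟨A, hA⟩ := exists_uniform hX.1 (P := fun (n : ℕ) (x : ℤ → S) =>
      ((∃ z ∈ Z, ∃ a ρ : ℕ, LEnd κ h d n z (word x (-(n : ℤ)) (2 * n + 1)) a ρ) ∧
        (∃ z ∈ Z, ∃ a ρ : ℕ, REnd κ h d n z (word x (-(n : ℤ)) (2 * n + 1)) a ρ))) hmono (by
      intro n x hx
      refine ⟨n, fun y hy => ?_⟩
      have e : word y (-(n : ℤ)) (2 * n + 1) = word x (-(n : ℤ)) (2 * n + 1) := by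
        rw [word_eq_iff]
        intro j hj
        exact hy _ (by rw [abs_le]; omega)
      rw [e]
      exact hx) (by
      intro x hx
      obtain ⟨A, hA⟩ := exists_LEnd κ h d (hZ x hx)
      obtain ⟨A', hA'⟩ := exists_REnd κ h d (hZ x hx)
      refine ⟨max A A', ?_, ?_⟩
      · obtain ⟨z, hz, a, ρ, H⟩ := hA
        exact ⟨z, hz, _, ρ, H.mono (le_max_left _ _)⟩
      · obtain ⟨z, hz, a, ρ, H⟩ := hA'
        exact ⟨z, hz, _, ρ, H.mono (le_max_right _ _)⟩)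
  exact ⟨max A κ, le_max_right _ _, fun x hx => hmono _ _ (le_max_left _ _) x (hA x hx)⟩

omit [TopologicalSpace S] [DiscreteTopology S] [Finite S] in
theorem exists_k0 (X : Set (ℤ → S)) (Z : Finset (ℤ → S)) (Ys : Finset (Set (ℤ → S))) :
    ∃ k₀, ∀ κ ≥ k₀, ∀ z ∈ Z, ∀ z' ∈ Z, ∀ Y ∈ Ys, CC X κ z Y z' → ∀ κ', CC X κ' z Y z' := by
  classical
  obtain ⟨n, hn⟩ := exists_sup (s := ((Z ×ˢ (Ys ×ˢ Z) : Finset _) : Set _))
    (Finset.finite_toSet _)
    (P := fun (p : (ℤ → S) × Set (ℤ → S) × (ℤ → S)) n =>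
      ∀ κ ≥ n, CC X κ p.1 p.2.1 p.2.2 → ∀ κ', CC X κ' p.1 p.2.1 p.2.2) (by
      intro p n m hnm h κ hκ
      exact h κ (hnm.trans hκ)) (by
      intro p _
      by_cases hall : ∀ κ', CC X κ' p.1 p.2.1 p.2.2
      · exact ⟨0, fun _ _ _ => hall⟩
      · push Not at hall
        obtain ⟨k, hk⟩ := hall
        exact ⟨k, fun κ hκ h => absurd (CC_mono_le hκ h) hk⟩)
  refine ⟨n, fun κ hκ z hz z' hz' Y hY => ?_⟩
  refine hn (z, Y, z') ?_ κ hκ
  simp only [Finset.coe_product, Set.mem_prod, Finset.mem_coe]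
  exact ⟨hz, hY, hz'⟩

omit [Finite S] in
theorem window_point {X : Set (ℤ → S)} (hX : IsSubshift X) {V : List S} {A : ℕ}
    (hV : V.length = 2 * A + 1) (hVX : V ∈ Lang X) :
    ∃ x ∈ X, V = word x (-(A : ℤ)) (2 * A + 1) := by
  obtain ⟨y, hy, b, hb⟩ := hVX
  refine ⟨sh (b + A) y, hX.sh_mem _ hy, ?_⟩
  rw [word_sh, ← hb, hV]
  congr 1
  ring

theorem Phi.complete {X : Set (ℤ → S)} (hX : IsSubshift X) {Z : Finset (ℤ → S)}
    {Ys : Finset (Set (ℤ → S))} (hZX : ∀ z ∈ Z, z ∈ X)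
    (hZ : ∀ x ∈ X, ∃ z ∈ Z, ∃ c : ℤ, x = sh c z)
    (hYs : ∀ Y, Y ∈ Ys ↔ IsSubshift Y ∧ Y ⊆ X) {κ : ℕ}
    {r : List S} (hr : κ + 1 ≤ r.length) (H : ∀ w ∈ Lang X, ¬ SameType κ r w) :
    Phi X Z Ys κ r := by
  obtain ⟨h, hh⟩ := exists_h hX hYs κ
  obtain ⟨d, hd⟩ := exists_d hX hZX κ
  obtain ⟨A, hκA, hA⟩ := exists_A hX hZ κ h d
  refine ⟨(h, d, A), hκA, hh, hd, fun V _ hV => H V hV, ?_⟩
  dsimp only
  intro V hV hVX hVr V' hV' hVX' hVr'
  obtain ⟨y, hy, rfl⟩ := window_point hX hV hVX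
  obtain ⟨y', hy', rfl⟩ := window_point hX hV' hVX'
  obtain ⟨⟨z, hz, a, ρ, hL⟩, -⟩ := hA y hy
  obtain ⟨-, ⟨z', hz', a', ρ', hR⟩⟩ := hA y' hy'
  refine ⟨z, hz, z', hz', ((a, ρ), (a', ρ')), hL, hR, ?_⟩
  dsimp only
  intro Y hY hCC
  by_contra hNE
  unfold NE at hNE
  push Not at hNE
  have hM : Match y 0 z ((A : ℤ) - a - ρ) ρ :=
    match_of_window hL.1 (by rw [zero_sub]; exact hL.2.1)
  have hM' : Match y' 0 z' ((A : ℤ) - a' - ρ') ρ' :=
    match_of_window hR.1 (by rw [zero_sub]; exact hR.2.1)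
  obtain ⟨x, hx, i, j, hij, h1, h2, h3⟩ := suff hCC κ ((A : ℤ) - a - ρ) ((A : ℤ) - a' - ρ')
  have hl1 := hL.1
  have hl2 := hL.2.2.1
  have hl3 := hL.2.2.2.1
  have hr1 := hR.1
  have hr2 := hR.2.2.1
  have hr3 := hR.2.2.2.1
  refine H (word x i (j - i + 1).toNat) (mem_Lang_word hx _ _) ⟨hr, by simp; omega, ?_, ?_, ?_⟩
  · rw [word_take, min_eq_left (by omega), h1, ← hVr, word_drop_take _ _ _ _ _ (by omega),
      word_eq_iff]
    intro k hk
    rw [← hM k (by rw [abs_le]; omega)]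
    congr 1
    ring
  · rw [word_drop, word_length, ← hVr', word_drop_take _ _ _ _ _ (by omega)]
    have e : word x (i + ((j - i + 1).toNat - κ : ℕ)) ((j - i + 1).toNat -
        ((j - i + 1).toNat - κ)) = word x (j - κ + 1) κ := by
      congr 1
      · omega
      · omega
    rw [e, h2, word_eq_iff]
    intro k hk
    rw [show ((A : ℤ) - a' - ρ' - κ + 1 + k) = ((A : ℤ) - a' - ρ') + (- κ + 1 + k) by ring,
      ← hM' (- κ + 1 + k) (by rw [abs_le]; omega)]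
    congr 1
    omega
  · intro u hu
    rw [hNE u hu, hL.occ_iff hu, hR.occ_iff hu, ← h3 u hu, word_infix_iff, hu]
    constructor
    · rintro ⟨t, h5, h6, h7⟩
      refine ⟨(t - i).toNat, by omega, ?_⟩
      rw [← h7]
      congr 1
      omega
    · rintro ⟨k, hk, h5⟩
      exact ⟨i + k, by omega, by omega, h5⟩

end Pool.Agent.MP752584
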