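import Pool.Agent.Lib.MP_752584_lc.Basic

/-!
Structure of countable subshifts with finitely many subsystems.
-/

namespace Pool.Agent.MP752584

variable {S : Type*} [TopologicalSpace S] [DiscreteTopology S] [Finite S]

theorem exists_isolated {K : Set (ℤ → S)} (hK : IsClosed K) (hc : K.Countable)
    (hne : K.Nonempty) :
    ∃ y ∈ K, ∃ m : ℕ, ∀ y' ∈ K, (∀ t : ℤ, |t| ≤ m → y' t = y t) → y' = y := by
  have : CompactSpace K := isCompact_iff_compactSpace.1 hK.isCompact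
  have : Countable K := hc.to_subtype
  have : Nonempty K := hne.to_subtype
  obtain ⟨y, hy⟩ := nonempty_interior_of_iUnion_of_closed
    (f := fun y : K => ({y} : Set K)) (fun y => isClosed_singleton) (by ext; simp)
  obtain ⟨y1, hy1⟩ := hy
  have hyy : y1 = y := by
    have := interior_subset hy1
    simpa using this
  subst hyy
  have hmem : interior ({y1} : Set K) ∈ nhds y1 := isOpen_interior.mem_nhds hy1
  rw [mem_nhds_subtype] at hmem
  obtain ⟨U, hU, hsub⟩ := hmem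
  obtain ⟨U', hU'U, hU'o, hyU'⟩ := mem_nhds_iff.1 hU
  obtain ⟨m, hm⟩ := exists_window hU'o hyU'
  refine ⟨y1, y1.2, m, fun y' hy' hag => ?_⟩
  have h1 : (⟨y', hy'⟩ : K) ∈ (Subtype.val ⁻¹' U : Set K) := hU'U (hm y' hag)
  have h2 := interior_subset (hsub h1)
  simp only [Set.mem_singleton_iff] at h2
  exact congrArg Subtype.val h2

theorem isolated {X : Set (ℤ → S)} (hX : IsSubshift X) (hc : X.Countable) {z : ℤ → S}
    (hz : z ∈ X) :
    ∃ m : ℕ, ∀ y ∈ OC z, (∀ t : ℤ, |t| ≤ m → y t = z t) → y = z := by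
  have hO := OC_isSubshift z
  obtain ⟨y, hy, m, hm⟩ := exists_isolated hO.1 (hc.mono (OC_subset hX hz))
    ⟨z, self_mem_OC z⟩
  obtain ⟨n, hn⟩ := hy m
  have hyz : sh n z = y := hm _ (hO.sh_mem n (self_mem_OC z)) fun t ht => (hn t ht).symm
  refine ⟨m + n.natAbs, fun y' hy' hag => ?_⟩
  have h1 : sh n y' = y := by
    refine hm _ (hO.sh_mem n hy') fun t ht => ?_
    rw [← hyz, sh_apply, sh_apply, hag (t + n) (by rw [abs_le] at *; omega)]
  have h2 : sh (-n) (sh n y') = sh (-n) (sh n z) := by rw [h1, hyz]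
  simpa [sh_sh] using h2

theorem exists_reps {X : Set (ℤ → S)} (hX : IsSubshift X) (hc : X.Countable)
    (hq : {Y : Set (ℤ → S) | IsSubshift Y ∧ Y ⊆ X}.Finite) :
    ∃ Z : Finset (ℤ → S), (∀ z ∈ Z, z ∈ X) ∧ ∀ x ∈ X, ∃ z ∈ Z, ∃ c : ℤ, x = sh c z := by
  classical
  have hfin : (OC '' X).Finite := by
    refine hq.subset ?_
    rintro _ ⟨x, hx, rfl⟩
    exact ⟨OC_isSubshift x, OC_subset hX hx⟩
  have hch : ∀ Y ∈ OC '' X, ∃ z, z ∈ X ∧ OC z = Y := by
    rintro _ ⟨x, hx, rfl⟩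
    exact ⟨x, hx, rfl⟩
  rcases X.eq_empty_or_nonempty with hXe | ⟨x0, _⟩
  · subst hXe
    exact ⟨∅, by simp, by simp⟩
  have : Nonempty (ℤ → S) := ⟨x0⟩
  choose! f hf using hch
  refine ⟨hfin.toFinset.image f, ?_, ?_⟩
  · intro z hz
    simp only [Finset.mem_image, Set.Finite.mem_toFinset] at hz
    obtain ⟨Y, hY, rfl⟩ := hz
    exact (hf Y hY).1
  · intro x hx
    have hmem : OC x ∈ OC '' X := ⟨x, hx, rfl⟩
    refine ⟨f (OC x), ?_, ?_⟩
    · simp only [Finset.mem_image, Set.Finite.mem_toFinset]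
      exact ⟨OC x, hmem, rfl⟩
    · obtain ⟨hzX, hzO⟩ := hf _ hmem
      generalize f (OC x) = z at hzX hzO
      obtain ⟨m, hm⟩ := isolated hX hc hzX
      have hzx : z ∈ OC x := hzO ▸ self_mem_OC z
      obtain ⟨n, hn⟩ := hzx m
      have h1 : sh n x = z := by
        refine hm _ ?_ fun t ht => (hn t ht).symm
        rw [hzO]
        exact (OC_isSubshift x).sh_mem n (self_mem_OC x)
      refine ⟨-n, ?_⟩
      rw [← h1, sh_sh]
      simp

omit [Finite S] in
theorem exists_avoid {X : Set (ℤ → S)} (hX : IsSubshift X)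
    (hq : {Y : Set (ℤ → S) | IsSubshift Y ∧ Y ⊆ X}.Finite) {Y : Set (ℤ → S)}
    (hY : IsSubshift Y) :
    ∃ W : Finset (List S), (∀ w ∈ W, w ∉ Lang Y) ∧
      ∀ x ∈ X, Avoids (W : Set (List S)) x → x ∈ Y := by
  classical
  have hch : ∀ Y' : Set (ℤ → S), ∃ w : List S, ¬ Lang Y' ⊆ Lang Y → w ∈ Lang Y' ∧ w ∉ Lang Y := by
    intro Y'
    by_cases h : Lang Y' ⊆ Lang Y
    · exact ⟨[], fun h' => absurd h h'⟩
    · obtain ⟨w, hw, hw'⟩ := Set.not_subset.1 h
      exact ⟨w, fun _ => ⟨hw, hw'⟩⟩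
  choose f hf using hch
  refine ⟨(hq.toFinset.filter fun Y' => ¬ Lang Y' ⊆ Lang Y).image f, ?_, ?_⟩
  · intro w hw
    simp only [Finset.mem_image, Finset.mem_filter] at hw
    obtain ⟨Y', ⟨_, hY'⟩, rfl⟩ := hw
    exact (hf Y' hY').2
  · intro x hx hav
    by_contra hxY
    have hnot : ¬ Lang (OC x) ⊆ Lang Y := by
      intro h
      exact hxY (subset_of_Lang_subset hY h (self_mem_OC x))
    have hmem : f (OC x) ∈ (((hq.toFinset.filter fun Y' => ¬ Lang Y' ⊆ Lang Y).image f :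
        Finset (List S)) : Set (List S)) := by
      simp only [Finset.coe_image, Set.mem_image, Finset.mem_coe, Finset.mem_filter,
        Set.Finite.mem_toFinset]
      exact ⟨OC x, ⟨⟨OC_isSubshift x, OC_subset hX hx⟩, hnot⟩, rfl⟩
    obtain ⟨t, ht⟩ := Lang_OC.1 (hf _ hnot).1
    exact hav _ hmem t ht

/-! ### Limit sets -/

/-- The omega-limit set of `z`. -/
def om (z : ℤ → S) : Set (ℤ → S) :=
  {y | ∀ m : ℕ, ∀ N : ℤ, ∃ n : ℤ, N ≤ n ∧ ∀ t : ℤ, |t| ≤ m → y t = z (t + n)}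

/-- The alpha-limit set of `z`. -/
def al (z : ℤ → S) : Set (ℤ → S) :=
  {y | ∀ m : ℕ, ∀ N : ℤ, ∃ n : ℤ, n ≤ N ∧ ∀ t : ℤ, |t| ≤ m → y t = z (t + n)}

omit [Finite S] in
theorem om_isSubshift (z : ℤ → S) : IsSubshift (om z) := by
  refine IsSubshift.of_sh ?_ ?_
  · rw [← isOpen_compl_iff]
    refine isOpen_of_local fun y hy => ?_
    have hy' : ¬ ∀ m : ℕ, ∀ N : ℤ, ∃ n : ℤ, N ≤ n ∧ ∀ t : ℤ, |t| ≤ m → y t = z (t + n) := hy
    push Not at hy'
    obtain ⟨m, N, hm⟩ := hy'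
    refine ⟨m, fun y' hy' hO => ?_⟩
    obtain ⟨n, hnN, hn⟩ := hO m N
    obtain ⟨t, ht, hne⟩ := hm n hnN
    exact hne (by rw [← hy' t ht, hn t ht])
  · intro y hy n m N
    obtain ⟨k, hkN, hk⟩ := hy (m + n.natAbs) (N - n)
    refine ⟨n + k, by omega, fun t ht => ?_⟩
    rw [sh_apply, hk (t + n) (by rw [abs_le] at *; omega)]
    congr 1
    ring

omit [Finite S] in
theorem al_isSubshift (z : ℤ → S) : IsSubshift (al z) := by
  refine IsSubshift.of_sh ?_ ?_
  · rw [← isOpen_compl_iff]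
    refine isOpen_of_local fun y hy => ?_
    have hy' : ¬ ∀ m : ℕ, ∀ N : ℤ, ∃ n : ℤ, n ≤ N ∧ ∀ t : ℤ, |t| ≤ m → y t = z (t + n) := hy
    push Not at hy'
    obtain ⟨m, N, hm⟩ := hy'
    refine ⟨m, fun y' hy' hO => ?_⟩
    obtain ⟨n, hnN, hn⟩ := hO m N
    obtain ⟨t, ht, hne⟩ := hm n hnN
    exact hne (by rw [← hy' t ht, hn t ht])
  · intro y hy n m N
    obtain ⟨k, hkN, hk⟩ := hy (m + n.natAbs) (N - n)
    refine ⟨n + k, by omega, fun t ht => ?_⟩
    rw [sh_apply, hk (t + n) (by rw [abs_le] at *; omega)]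
    congr 1
    ring

omit [TopologicalSpace S] [DiscreteTopology S] [Finite S] in
theorem om_subset_OC (z : ℤ → S) : om z ⊆ OC z := by
  intro y hy m
  obtain ⟨n, _, hn⟩ := hy m 0
  exact ⟨n, hn⟩

omit [TopologicalSpace S] [DiscreteTopology S] [Finite S] in
theorem al_subset_OC (z : ℤ → S) : al z ⊆ OC z := by
  intro y hy m
  obtain ⟨n, _, hn⟩ := hy m 0
  exact ⟨n, hn⟩

theorem Lang_om {X : Set (ℤ → S)} (hX : IsSubshift X) {z : ℤ → S} (hz : z ∈ X) {u : List S} :
    u ∈ Lang (om z) ↔ ∀ N : ℤ, ∃ t : ℤ, N ≤ t ∧ word z t u.length = u := by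
  constructor
  · rintro ⟨y, hy, a, ha⟩ N
    obtain ⟨n, hnN, hn⟩ := hy (a.natAbs + u.length) (N - a)
    refine ⟨a + n, by omega, ?_⟩
    nth_rewrite 2 [← ha]
    rw [word_eq_iff]
    intro j hj
    rw [hn (a + j) (by rw [abs_le]; omega)]
    congr 1
    ring
  · intro h
    by_contra hu
    suffices H : ∃ n : ℕ, ∀ y ∈ X, (word y 0 u.length ≠ u ∨
        ∀ n' : ℤ, (n : ℤ) ≤ n' → ∃ t : ℤ, |t| ≤ n ∧ y t ≠ z (t + n')) by
      obtain ⟨n, hn⟩ := H
      obtain ⟨t, htn, ht⟩ := h n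
      rcases hn (sh t z) (hX.sh_mem t hz) with h1 | h1
      · exact h1 (by rw [word_sh, zero_add]; exact ht)
      · obtain ⟨s, _, hs⟩ := h1 t htn
        exact hs rfl
    refine exists_uniform hX.1 ?_ ?_ ?_
    · intro n m hnm x hx
      rcases hx with h1 | h1
      · exact Or.inl h1
      · refine Or.inr fun n' hn' => ?_
        obtain ⟨t, ht, hne⟩ := h1 n' (by omega)
        exact ⟨t, by omega, hne⟩
    · intro n x hx
      refine ⟨max n u.length, fun y hy => ?_⟩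
      rcases hx with h1 | h1
      · left
        intro h2
        apply h1
        nth_rewrite 2 [← h2]
        rw [word_eq_iff]
        intro j hj
        refine (hy _ ?_).symm
        rw [abs_le]
        constructor <;> push_cast <;> omega
      · right
        intro n' hn'
        obtain ⟨t, ht, hne⟩ := h1 n' hn'
        refine ⟨t, ht, ?_⟩
        rw [hy t (by push_cast; omega)]
        exact hne
    · intro x _
      by_cases hxu : word x 0 u.length = u
      · have hxom : x ∉ om z := fun hx => hu ⟨x, hx, 0, hxu⟩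
        have hy' : ¬ ∀ m : ℕ, ∀ N : ℤ, ∃ n : ℤ, N ≤ n ∧ ∀ t : ℤ, |t| ≤ m → x t = z (t + n) :=
          hxom
        push Not at hy'
        obtain ⟨m, N, hm⟩ := hy'
        refine ⟨max m N.toNat, Or.inr fun n' hn' => ?_⟩
        obtain ⟨t, ht, hne⟩ := hm n' (by push_cast at hn'; omega)
        exact ⟨t, by push_cast; omega, hne⟩
      · exact ⟨0, Or.inl hxu⟩

theorem Lang_al {X : Set (ℤ → S)} (hX : IsSubshift X) {z : ℤ → S} (hz : z ∈ X) {u : List S} :
    u ∈ Lang (al z) ↔ ∀ N : ℤ, ∃ t : ℤ, t ≤ N ∧ word z t u.length = u := by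
  constructor
  · rintro ⟨y, hy, a, ha⟩ N
    obtain ⟨n, hnN, hn⟩ := hy (a.natAbs + u.length) (N - a)
    refine ⟨a + n, by omega, ?_⟩
    nth_rewrite 2 [← ha]
    rw [word_eq_iff]
    intro j hj
    rw [hn (a + j) (by rw [abs_le]; omega)]
    congr 1
    ring
  · intro h
    by_contra hu
    suffices H : ∃ n : ℕ, ∀ y ∈ X, (word y 0 u.length ≠ u ∨
        ∀ n' : ℤ, n' ≤ -(n : ℤ) → ∃ t : ℤ, |t| ≤ n ∧ y t ≠ z (t + n')) by
      obtain ⟨n, hn⟩ := H
      obtain ⟨t, htn, ht⟩ := h (-n)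
      rcases hn (sh t z) (hX.sh_mem t hz) with h1 | h1
      · exact h1 (by rw [word_sh, zero_add]; exact ht)
      · obtain ⟨s, _, hs⟩ := h1 t htn
        exact hs rfl
    refine exists_uniform hX.1 ?_ ?_ ?_
    · intro n m hnm x hx
      rcases hx with h1 | h1
      · exact Or.inl h1
      · refine Or.inr fun n' hn' => ?_
        obtain ⟨t, ht, hne⟩ := h1 n' (by omega)
        exact ⟨t, by omega, hne⟩
    · intro n x hx
      refine ⟨max n u.length, fun y hy => ?_⟩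
      rcases hx with h1 | h1
      · left
        intro h2
        apply h1
        nth_rewrite 2 [← h2]
        rw [word_eq_iff]
        intro j hj
        refine (hy _ ?_).symm
        rw [abs_le]
        constructor <;> push_cast <;> omega
      · right
        intro n' hn'
        obtain ⟨t, ht, hne⟩ := h1 n' hn'
        refine ⟨t, ht, ?_⟩
        rw [hy t (by push_cast; omega)]
        exact hne
    · intro x _
      by_cases hxu : word x 0 u.length = u
      · have hxom : x ∉ al z := fun hx => hu ⟨x, hx, 0, hxu⟩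
        have hy' : ¬ ∀ m : ℕ, ∀ N : ℤ, ∃ n : ℤ, n ≤ N ∧ ∀ t : ℤ, |t| ≤ m → x t = z (t + n) :=
          hxom
        push Not at hy'
        obtain ⟨m, N, hm⟩ := hy'
        refine ⟨max m (-N).toNat, Or.inr fun n' hn' => ?_⟩
        obtain ⟨t, ht, hne⟩ := hm n' (by push_cast at hn'; omega)
        exact ⟨t, by push_cast; omega, hne⟩
      · exact ⟨0, Or.inl hxu⟩

/-- Hard-wired information on the right tail of `z`. -/
theorem exists_right {X : Set (ℤ → S)} (hX : IsSubshift X)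
    (hq : {Y : Set (ℤ → S) | IsSubshift Y ∧ Y ⊆ X}.Finite) {z : ℤ → S} (hz : z ∈ X) :
    ∃ W : Finset (List S), ∃ a : ℕ, (∀ x ∈ X, Avoids (W : Set (List S)) x → x ∈ om z) ∧
      ∀ w ∈ W, ∀ t : ℤ, (a : ℤ) ≤ t → word z t w.length ≠ w := by
  obtain ⟨W, hW, hWX⟩ := exists_avoid hX hq (om_isSubshift z)
  have hch : ∀ w : List S, ∃ N : ℕ, w ∈ W → ∀ t : ℤ, (N : ℤ) ≤ t → word z t w.length ≠ w := by
    intro w
    by_cases hw : w ∈ W
    · have h := hW w hw
      rw [Lang_om hX hz] at h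
      push Not at h
      obtain ⟨N, hN⟩ := h
      exact ⟨N.toNat, fun _ t ht => hN t (by omega)⟩
    · exact ⟨0, fun h => absurd h hw⟩
  choose f hf using hch
  refine ⟨W, W.sup f, hWX, fun w hw t ht => hf w hw t ?_⟩
  have := Finset.le_sup (f := f) hw
  omega

/-- Hard-wired information on the left tail of `z`. -/
theorem exists_left {X : Set (ℤ → S)} (hX : IsSubshift X)
    (hq : {Y : Set (ℤ → S) | IsSubshift Y ∧ Y ⊆ X}.Finite) {z : ℤ → S} (hz : z ∈ X) :
    ∃ W : Finset (List S), ∃ a : ℕ, (∀ x ∈ X, Avoids (W : Set (List S)) x → x ∈ al z) ∧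
      ∀ w ∈ W, ∀ t : ℤ, t ≤ -(a : ℤ) → word z t w.length ≠ w := by
  obtain ⟨W, hW, hWX⟩ := exists_avoid hX hq (al_isSubshift z)
  have hch : ∀ w : List S, ∃ N : ℕ, w ∈ W → ∀ t : ℤ, t ≤ -(N : ℤ) → word z t w.length ≠ w := by
    intro w
    by_cases hw : w ∈ W
    · have h := hW w hw
      rw [Lang_al hX hz] at h
      push Not at h
      obtain ⟨N, hN⟩ := h
      exact ⟨(-N).toNat, fun _ t ht => hN t (by omega)⟩
    · exact ⟨0, fun h => absurd h hw⟩
  choose f hf using hch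
  refine ⟨W, W.sup f, hWX, fun w hw t ht => hf w hw t ?_⟩
  have := Finset.le_sup (f := f) hw
  omega

end Pool.Agent.MP752584
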